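import Pool.Agent.E8helper3.AT.Sta
import Pool.Agent.Y123.GN.E8

/-!
# Big Galois groups: the subtorsors are determined by their projections
-/

set_option autoImplicit false
set_option linter.unusedSectionVars false

open PowerSeries Matrix Module

namespace Pool.Agent.E8helper3.AT

open Pool.Agent.TH127.PT Pool.Agent.Y123.ST Pool.Agent.Y123.GN Pool.Agent.TH119.DR

variable {B₀ : Type} [Fintype B₀] [DecidableEq B₀] {k n : ℕ} {K : Subfield ℂ} {T : Set (Matrix (IN B₀ k n) (IN B₀ k n) ℂ)}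

/-- stability under the unipotent group and the group of a form -/
def StB (B : Matrix (Fin n) (Fin n) ℂ) (T : Set (Matrix (IN B₀ k n) (IN B₀ k n) ℂ)) : Prop :=
  ∀ (a : Fin k → ℂ) (g : Fin k → (Matrix (Fin n) (Fin n) ℂ)ˣ), (∀ i, g i ∈ GB B) →
    ∀ x ∈ T, EM 1 (fun i => uu (a i)) (fun i => (g i : Matrix (Fin n) (Fin n) ℂ)) * x ∈ T

/-- **the fibres are full** -/
theorem full_fibre {B : Matrix (Fin n) (Fin n) ℂ} (hT : IsSubtorsor K T) (hst : StB B T) {x₀ : Matrix B₀ B₀ ℂ} {μ : ℂ}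
    {ν : Fin k → ℂ} (hμ : μ ≠ 0) (hν : ∀ i, ν i ≠ 0) {u u' : Fin k → ℂ} {X Y Q : Fin k → Matrix (Fin n) (Fin n) ℂ}
    (hx : EM x₀ (fun i => kum (u i) μ) X ∈ T) (hX : ∀ i, X i * Q i * (X i)ᵀ = ν i • B)
    (hY : ∀ i, Y i * Q i * (Y i)ᵀ = ν i • B) (hd : Spf B ∨ ∀ i, (X i).det = (Y i).det) :
    EM x₀ (fun i => kum (u' i) μ) Y ∈ T := by
  obtain ⟨-, -, hu⟩ := unit_of_EM (hT.isUnit _ hx)
  choose g hg hgX using fun i => quot_GB (hν i) (hu i) (hX i) (hY i) (hd.imp id fun h => h i)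
  have h1 := hst (fun i => (u' i - u i) / μ) g hg _ hx
  rw [EM_mul, Matrix.one_mul] at h1
  have h2 : (fun i => (g i : Matrix (Fin n) (Fin n) ℂ) * X i) = Y := by
    funext i
    exact hgX i
  have h3 : (fun i => uu ((fun i => (u' i - u i) / μ) i) * kum (u i) μ) = fun i => kum (u' i) μ := by
    funext i
    rw [uu_kum, div_mul_cancel₀ _ hμ]
    congr 1
    ring
  rw [h2, h3] at h1
  exact h1

theorem smul_inj [Nonempty B₀] {z z' : ℂ} (h : z • (1 : Matrix B₀ B₀ ℂ) = z' • (1 : Matrix B₀ B₀ ℂ)) : z = z' :=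
  smul_one_inj h

/-- all values of the Tate coordinate occur -/
theorem tateM (hK : ∀ x ∈ K, IsAlgebraic ℚ x) (hT : IsSubtorsor K T) {κ : Fin k → Matrix (Fin 2) (Fin 2) ℂ}
    {X : Fin k → Matrix (Fin n) (Fin n) ℂ} (hc : EM (tpi • (1 : Matrix B₀ B₀ ℂ)) κ X ∈ T) {z : ℂ} (hz : z ≠ 0) :
    ∃ (κ' : Fin k → Matrix (Fin 2) (Fin 2) ℂ) (X' : Fin k → Matrix (Fin n) (Fin n) ℂ),
      EM (z • (1 : Matrix B₀ B₀ ℂ)) κ' X' ∈ T := by
  have hτ : Transcendental K tpi := tpi_tr hK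
  -- transcendental values
  have htr : ∀ z : ℂ, Transcendental K z → ∃ (κ' : Fin k → Matrix (Fin 2) (Fin 2) ℂ) (X' : Fin k → Matrix (Fin n) (Fin n) ℂ),
      EM (z • (1 : Matrix B₀ B₀ ℂ)) κ' X' ∈ T := by
    intro z hz
    obtain ⟨σ, h1, h2⟩ := Pool.Agent.H37PG.exists_aut hτ hz
    have h3 := aut_mem hT (σ := σ) (fun x hx => h1 ⟨x, hx⟩) hc
    refine ⟨fun i => (κ i).map σ, fun i => (X i).map σ, ?_⟩
    rw [EM_map] at h3
    have h4 : (tpi • (1 : Matrix B₀ B₀ ℂ)).map σ = z • (1 : Matrix B₀ B₀ ℂ) := by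
      ext a b
      rw [Matrix.map_apply, Matrix.smul_apply, Matrix.smul_apply, smul_eq_mul, smul_eq_mul, map_mul, h2,
        Matrix.one_apply, apply_ite σ, map_one, map_zero]
    rw [h4] at h3
    exact h3
  by_cases hza : Transcendental K z
  · exact htr z hza
  have hza' : IsAlgebraic K z := by
    by_contra h
    exact hza h
  have h2 : Transcendental K (tpi ^ 2) := fun h => hτ (h.of_pow (by norm_num))
  have h3 : Transcendental K (z * tpi) := by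
    intro h
    apply hτ
    have h4 : tpi = z⁻¹ * (z * tpi) := by rw [← mul_assoc, inv_mul_cancel₀ hz, one_mul]
    rw [h4]
    exact hza'.inv.mul h
  obtain ⟨κ₂, X₂, hX₂⟩ := htr _ h2
  obtain ⟨κ₃, X₃, hX₃⟩ := htr _ h3
  have h4 := hT.torsor _ hc _ hX₂ _ hX₃
  obtain ⟨hu1, hu2, hu3⟩ := unit_of_EM (hT.isUnit _ hX₂)
  have hinv : ((tpi ^ 2) • (1 : Matrix B₀ B₀ ℂ))⁻¹ = ((tpi ^ 2)⁻¹ : ℂ) • (1 : Matrix B₀ B₀ ℂ) := by
    refine Matrix.inv_eq_right_inv ?_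
    rw [smul_mul_smul_comm, Matrix.one_mul, mul_inv_cancel₀ (pow_ne_zero 2 tpi_ne), one_smul]
  rw [EM_inv hu1 hu2 hu3, hinv, EM_mul, EM_mul, smul_mul_smul_comm, smul_mul_smul_comm, Matrix.one_mul, Matrix.one_mul] at h4
  have h5 : tpi * (tpi ^ 2)⁻¹ * (z * tpi) = z := by
    have := tpi_ne
    field_simp
  rw [h5] at h4
  exact ⟨_, _, h4⟩

theorem kum_inj {l l' μ μ' : ℂ} (h : kum l μ = kum l' μ') : l = l' ∧ μ = μ' := by
  have h1 := congrFun (congrFun h 0) 1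
  have h2 := congrFun (congrFun h 1) 1
  exact ⟨by simpa [kum] using h1, by simpa [kum] using h2⟩

/-- the Galois group contains the group of a classical form -/
theorem StB_of {Ω : Matrix (Fin n) (Fin n) ℂ} {N : Matrix (Fin n) (Fin n) ℤ} {Z : Matrix (Fin n) (Fin n) ℚ⟦X⟧}
    {B : Matrix (Fin n) (Fin n) ℂ} (hB : Clf B) (hG : GB B ≤ Gal Ω N Z)
    (hst : ∀ (a : Fin k → ℂ) (g : Fin k → (Matrix (Fin n) (Fin n) ℂ)ˣ), (∀ i, g i ∈ Knw Ω N Z) →
      ∀ x ∈ T, EM 1 (fun i => uu (a i)) (fun i => (g i : Matrix (Fin n) (Fin n) ℂ)) * x ∈ T) : StB B T := by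
  intro a g hg x hx
  exact hst a g (fun i => mono_comm hG (cl_perf hB) (hg i)) x hx

end Pool.Agent.E8helper3.AT
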