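import Pool.Agent.E8helper3.AT.Big
import Pool.Agent.Y124.TL.Ba
import Pool.Agent.Y119.J.Gen

/-!
# Almost all tuples of algebraic integers
-/

set_option autoImplicit false
set_option linter.unusedSectionVars false

open PowerSeries Matrix Module

namespace Pool.Agent.E8helper3.AT

open Pool.Agent.TH127.PT Pool.Agent.Y123.ST Pool.Agent.Y123.GN Pool.Agent.Y916.Af Pool.Agent.Y118.UL Pool.Agent.TH119.DR
open Pool.Agent.Y916 (Sl.SInt Sl.AInt Sl.Mm Sl.many Sl.prop_bound Sl.SInt.aint Sl.sint_fin Sl.mem_NF)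
open Pool.Agent.Y916.Al (evc Cvc)
open Pool.Agent.Y119.HZ (ix)

variable {n : ℕ}

/-- the constant part -/
def wT {r : ℕ} (C₀ : Matrix (Fin r) (Fin r) ℂ) (μ : ℂ) : Matrix (Fin r ⊕ Unit) (Fin r ⊕ Unit) ℂ :=
  fromBlocks C₀ 0 0 (Matrix.of fun _ _ => μ)

/-- the conclusion -/
def GoodL {r k : ℕ} (D : ℕ) (Ω : Matrix (Fin n) (Fin n) ℂ) (N : Matrix (Fin n) (Fin n) ℤ) (Z : Matrix (Fin n) (Fin n) ℚ⟦X⟧)
    (C₀ : Matrix (Fin r) (Fin r) ℂ) (α : Fin k → ℂ) : Prop :=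
  (∀ i a b, Cvc (1 / α i) (Z a b)) ∧ (∀ i, IsUnit (vZ Z (α i))) ∧ ∀ ℓ : Fin k → ℂ, (∀ i, Complex.exp (ℓ i) = α i) →
    ∀ K : Subfield ℂ, FiniteDimensional ℚ K → finrank ℚ K ≤ D →
    ∀ T : Set (Matrix (IN (Fin r ⊕ Unit) k n) (IN (Fin r ⊕ Unit) k n) ℂ), IsSubtorsor K T → tot (wT C₀ tpi) Ω N Z α ℓ ∈ T →
    ∀ (a : Fin k → ℂ) (g : Fin k → (Matrix (Fin n) (Fin n) ℂ)ˣ), (a = 0 ∨ Uni Ω N Z) → (∀ i, g i ∈ Knw Ω N Z) →
    ∀ x ∈ T, EM 1 (fun i => uu (a i)) (fun i => (g i : Matrix (Fin n) (Fin n) ℂ)) * x ∈ T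

/-- geometric growth -/
def Gro (g : ℚ⟦X⟧) : Prop := ∃ C : ℝ, ∀ m, |((coeff m g : ℚ) : ℝ)| ≤ C ^ (m + 1)

theorem Gro.cvc {g : ℚ⟦X⟧} (hg : Gro g) : ∃ B : ℕ, ∀ α : ℂ, (B : ℝ) < ‖α‖ → Cvc (1 / α) g := by
  obtain ⟨C, hC⟩ := hg
  obtain ⟨B, hB⟩ := exists_nat_ge |C|
  refine ⟨B, fun α hα => ?_⟩
  have hα0 : 0 < ‖α‖ := lt_of_le_of_lt (Nat.cast_nonneg B) hα
  refine Pool.Agent.Y916.Al.Cvc.of_bound (A := |C|) (B := |C|) (abs_nonneg C) ?_ fun m => ?_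
  · rw [norm_div, norm_one, mul_one_div, div_lt_one hα0]
    linarith
  · have h2 : ‖((coeff m g : ℚ) : ℂ)‖ = |((coeff m g : ℚ) : ℝ)| := by
      rw [← Complex.ofReal_ratCast, Complex.norm_real, Real.norm_eq_abs]
    rw [h2, ← pow_succ']
    refine (hC m).trans ?_
    rw [← abs_pow]
    exact le_abs_self _

theorem all_cvc {Z : Matrix (Fin n) (Fin n) ℚ⟦X⟧} (hZ : ∀ i j, Gro (Z i j)) :
    ∃ B : ℕ, ∀ α : ℂ, (B : ℝ) < ‖α‖ → ∀ i j, Cvc (1 / α) (Z i j) := by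
  choose B hB using fun i j => (hZ i j).cvc
  refine ⟨∑ p : Fin n × Fin n, B p.1 p.2, fun α hα i j => hB i j α (lt_of_le_of_lt ?_ hα)⟩
  exact_mod_cast Finset.single_le_sum (f := fun p : Fin n × Fin n => B p.1 p.2) (fun _ _ => Nat.zero_le _)
    (Finset.mem_univ (i, j))

/-- the values are invertible -/
theorem vZ_unit {Z W : Matrix (Fin n) (Fin n) ℚ⟦X⟧} (hW : W * Z = 1) {α : ℂ} (h1 : ∀ i j, Cvc (1 / α) (Z i j))
    (h2 : ∀ i j, Cvc (1 / α) (W i j)) : IsUnit (vZ Z α) := by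
  have h3 : vZ W α * vZ Z α = 1 := by
    ext i j
    rw [Matrix.mul_apply]
    have h4 := congrFun (congrFun hW i) j
    rw [Matrix.mul_apply] at h4
    have h5 := Cvc.ev_sum (x := 1 / α) Finset.univ (fun k => W i k * Z k j) fun k _ => (h2 i k).mul (h1 k j)
    rw [h4] at h5
    have h6 : ∑ k, vZ W α i k * vZ Z α k j = ∑ k, evc (1 / α) (W i k * Z k j) :=
      Finset.sum_congr rfl fun k _ => ((h2 i k).ev_mul (h1 k j)).symm
    rw [h6, ← h5, Matrix.one_apply, Matrix.one_apply]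
    split_ifs
    · exact Pool.Agent.Y916.Al.ev_one
    · exact Pool.Agent.Y916.Al.ev_zero
  exact IsUnit.of_mul_eq_one _ (mul_eq_one_comm.1 h3)

/-- the point is in the fibres -/
theorem Pin_of {Z : Matrix (Fin n) (Fin n) ℚ⟦X⟧} (hZ' : ∀ i j, Gro (Z i j)) :
    ∃ B : ℕ, 1 ≤ B ∧ ∀ α : ℂ, (B : ℝ) < ‖α‖ → SpecP (ent Z) (1 / α) fun p => vZ Z α p.1 p.2 := by
  have hsize : ∃ C : ℝ, ∀ i m, |((coeff m (hZ Z i) : ℚ) : ℝ)| ≤ C ^ (m + 1) := by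
    choose C hC using hZ'
    refine ⟨∑ p : Fin n × Fin n, |C p.1 p.2|, fun i m => (hC _ _ m).trans ?_⟩
    have h1 : |C (ix n i).2 (ix n i).1| ≤ ∑ p : Fin n × Fin n, |C p.1 p.2| :=
      Finset.single_le_sum (f := fun p : Fin n × Fin n => |C p.1 p.2|) (fun p _ => abs_nonneg _)
        (Finset.mem_univ ((ix n i).2, (ix n i).1))
    calc C (ix n i).2 (ix n i).1 ^ (m + 1) ≤ |C (ix n i).2 (ix n i).1 ^ (m + 1)| := le_abs_self _
      _ = |C (ix n i).2 (ix n i).1| ^ (m + 1) := abs_pow _ _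
      _ ≤ _ := pow_le_pow_left₀ (abs_nonneg _) h1 _
  obtain ⟨B, hB1, hB⟩ := Pool.Agent.Y916.Af.val_memC hsize
  refine ⟨B, hB1, fun α hα => ?_⟩
  have h1 : SpecP (hZ Z) (1 / α) fun i => evc (1 / α) (hZ Z i) := hB α hα
  have h2 := spec_equiv ((ix n).trans (Equiv.prodComm _ _)).symm h1
  have h3 : (fun p : Fin n × Fin n => hZ Z (((ix n).trans (Equiv.prodComm _ _)).symm p)) = ent Z := by
    funext p
    show Z (ix n ((ix n).symm (p.2, p.1))).2 (ix n ((ix n).symm (p.2, p.1))).1 = Z p.1 p.2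
    rw [Equiv.apply_symm_apply]
  have h4 : (fun p : Fin n × Fin n => evc (1 / α) (hZ Z (((ix n).trans (Equiv.prodComm _ _)).symm p))) =
      fun p => vZ Z α p.1 p.2 := by
    funext p
    exact congrArg (evc (1 / α)) (congrFun h3 p)
  rw [h3, h4] at h2
  exact h2

end Pool.Agent.E8helper3.AT
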