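import Pool.Agent.E8helper3.AT.Grp
import Pool.Agent.Y916.Af.Gs3
import Pool.Agent.Y123.GN.C6

/-!
# Relations of the total period matrix along polynomial curves in the fibres
-/

set_option autoImplicit false
set_option linter.unusedSectionVars false

open PowerSeries Matrix Module

namespace Pool.Agent.E8helper3.AT

open Pool.Agent.TH127.PT Pool.Agent.Y123.ST Pool.Agent.Y123.GN Pool.Agent.Y113 Pool.Agent.Y916.Af Pool.Agent.Y118.UL

/-- products of powers -/
theorem DC_prod {ι σ : Type} {e : ℕ} {W : Submodule ℚ ℂ} (s : Finset ι) (L : ι → MvPolynomial σ ℂ)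
    (hL : ∀ i, DC e W (L i)) (t : ι → ℕ) : DC (e * ∑ i ∈ s, t i) (W ^ (∑ i ∈ s, t i)) (∏ i ∈ s, L i ^ t i) := by
  classical
  induction s using Finset.induction_on with
  | empty =>
    rw [Finset.sum_empty, Finset.prod_empty, pow_zero, mul_zero]
    refine ⟨by simp, fun s => ?_⟩
    rw [MvPolynomial.coeff_one]
    split_ifs
    · exact Submodule.one_le.1 le_rfl
    · exact Submodule.zero_mem _
  | insert i s hi ih =>
    rw [Finset.sum_insert hi, Finset.prod_insert hi, mul_add, pow_add]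
    exact ((hL i).pow (t i)).mul ih

/-- substitutions of degree `e` -/
theorem DC_subst {ι τ : Type} [Fintype ι] {m e : ℕ} {V W : Submodule ℚ ℂ} (h1 : (1 : ℂ) ∈ W) (L : ι → MvPolynomial τ ℂ)
    (hL : ∀ i, DC e W (L i)) {P : MvPolynomial ι ℂ} (hP : DC m V P) : DC (e * m) (V * W ^ m) (MvPolynomial.aeval L P) := by
  classical
  rw [MvPolynomial.aeval_def, MvPolynomial.eval₂_eq']
  refine DC.sum _ fun s hs => ?_
  have hs' : ∑ i, s i ≤ m := by
    have h2 := MvPolynomial.le_totalDegree hs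
    have h3 : (s.sum fun _ e => e) = ∑ i, s i := by
      rw [Finsupp.sum_fintype]
      simp
    rw [h3] at h2
    exact h2.trans hP.1
  have h2 : DC 0 V (MvPolynomial.C (MvPolynomial.coeff s P) : MvPolynomial τ ℂ) := by
    refine ⟨by simp, fun t => ?_⟩
    rw [MvPolynomial.coeff_C]
    split_ifs
    · exact hP.2 s
    · exact Submodule.zero_mem _
  have h3 := h2.mul (DC_prod Finset.univ L hL s)
  rw [zero_add] at h3
  refine h3.mono (Nat.mul_le_mul_left e hs') ?_
  exact Submodule.mul_le.2 fun a ha b hb => Submodule.mul_mem_mul ha (pow_mono_sub h1 hs' hb)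

/-- the image of a polynomial curve is irreducible -/
theorem irr_curve {ι : Type} (q : ι → Polynomial ℂ) : Irr (Set.range fun s : ℂ => fun v => (q v).eval s) := by
  intro P Q h
  have hev : ∀ (R : MvPolynomial ι ℂ) (s : ℂ), (MvPolynomial.aeval q R).eval s =
      MvPolynomial.eval (fun v => (q v).eval s) R := by
    intro R s
    induction R using MvPolynomial.induction_on with
    | C a => rw [MvPolynomial.aeval_C, MvPolynomial.eval_C]; exact Polynomial.eval_C
    | add p q hp hq => rw [map_add, Polynomial.eval_add, hp, hq, map_add]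
    | mul_X p v hp => rw [map_mul, Polynomial.eval_mul, hp, MvPolynomial.aeval_X, map_mul, MvPolynomial.eval_X]
  have h1 : MvPolynomial.aeval q P * MvPolynomial.aeval q Q = 0 := by
    refine Polynomial.funext fun s => ?_
    rw [Polynomial.eval_mul, hev, hev, Polynomial.eval_zero]
    exact h _ ⟨s, rfl⟩
  rcases mul_eq_zero.1 h1 with h2 | h2
  · left
    rintro _ ⟨s, rfl⟩
    rw [← hev, h2, Polynomial.eval_zero]
  · right
    rintro _ ⟨s, rfl⟩
    rw [← hev, h2, Polynomial.eval_zero]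

/-- a subfield as an intermediate field -/
theorem exists_inter {K : Subfield ℂ} (hf : FiniteDimensional ℚ K) : ∃ L : IntermediateField ℚ ℂ, (∀ x, x ∈ L ↔ x ∈ K) ∧
    FiniteDimensional ℚ L ∧ finrank ℚ L = finrank ℚ K := by
  let L : IntermediateField ℚ ℂ := K.toIntermediateField fun x => by
    rw [eq_ratCast]
    exact SubfieldClass.ratCast_mem K x
  let e : K ≃ₗ[ℚ] L :=
    { toFun := fun x => ⟨x.1, x.2⟩
      invFun := fun x => ⟨x.1, x.2⟩
      map_add' := fun x y => rfl
      map_smul' := fun q x => by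
        refine Subtype.ext ?_
        show ((q • x : K) : ℂ) = ((q • (⟨x.1, x.2⟩ : L) : L) : ℂ)
        rw [Algebra.smul_def, Algebra.smul_def]
        show ((algebraMap ℚ K q : K) : ℂ) * x.1 = ((algebraMap ℚ L q : L) : ℂ) * x.1
        congr 1
      left_inv := fun x => rfl
      right_inv := fun x => rfl }
  exact ⟨L, fun x => Iff.rfl, Module.Finite.equiv e, e.finrank_eq.symm⟩

section

variable {k r : ℕ} {K : Subfield ℂ} {M : Type} [Fintype M] [DecidableEq M]

/-- **Relations along curves.** -/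
theorem curve_rl {h : Fin r → ℚ⟦X⟧} {α ℓ : Fin k → ℂ} {e d D : ℕ} {W : Submodule ℚ ℂ} (h1W : (1 : ℂ) ∈ W)
    (hexc : ¬ ExcT h (e * d) D (W ^ d) α) (hℓ : ∀ i, Complex.exp (ℓ i) = α i) (hK : FiniteDimensional ℚ K)
    (hKD : finrank ℚ K ≤ D) {Φ : M × M → MvPolynomial (Fin k × Option (Fin r)) ℂ} (hΦ : ∀ b, DC e W (Φ b))
    (q : Fin k × Option (Fin r) → Polynomial ℂ) (hq0 : ∀ v, (q v).eval 0 = ptc h α ℓ v)
    (hqV : ∀ s j, (fun i => (q (j, some i)).eval s) ∈ Vc h (1 / α j)) {c c' : Matrix M M ℂ}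
    (hc : ∀ b, fl c b = MvPolynomial.aeval (ptc h α ℓ) (Φ b))
    (hc' : ∀ b, fl c' b = MvPolynomial.aeval (fun v => (q v).eval 1) (Φ b)) : Rl K d c c' := by
  intro P hP hd h0
  obtain ⟨L, hLK, hLf, hLr⟩ := exists_inter hK
  -- the coefficients
  let VK : Submodule ℚ ℂ := (Subalgebra.toSubmodule L.toSubalgebra)
  have hDC : DC (e * d) (VK * W ^ d) (MvPolynomial.aeval Φ P) := DC_subst h1W Φ hΦ ⟨hd, fun s => (hLK _).2 (hP s)⟩
  have hsp : ∀ x ∈ VK * W ^ d, x ∈ Submodule.span L ((W ^ d : Submodule ℚ ℂ) : Set ℂ) := by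
    intro x hx
    induction hx using Submodule.mul_induction_on' with
    | mem_mul_mem a ha b hb =>
      have h1 : a * b = (⟨a, ha⟩ : L) • b := rfl
      rw [h1]
      exact Submodule.smul_mem _ _ (Submodule.subset_span hb)
    | add a _ b _ h1 h2 => exact Submodule.add_mem _ h1 h2
  have e1 : fl c = fun b => MvPolynomial.aeval (ptc h α ℓ) (Φ b) := funext hc
  have e2 : fl c' = fun b => MvPolynomial.aeval (fun v => (q v).eval 1) (Φ b) := funext hc'
  rw [e2, ← Pool.Agent.Y123.GN.aeval_comp]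
  rw [e1, ← Pool.Agent.Y123.GN.aeval_comp] at h0
  by_contra hne
  apply hexc
  refine ⟨ℓ, hℓ, Set.range fun s : ℂ => fun v => (q v).eval s, irr_curve q, ⟨0, funext hq0⟩, ?_, L, hLf,
    hLr.le.trans hKD, MvPolynomial.aeval Φ P, hDC.1, fun s => hsp _ (hDC.2 s), h0, _, ⟨1, rfl⟩, hne⟩
  rintro _ ⟨s, rfl⟩ j
  exact hqV s j

end

end Pool.Agent.E8helper3.AT
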