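import Pool.Agent.E8helper3.AT.Cnt

/-!
# Almost all tuples of algebraic integers: the counting theorem
-/

set_option autoImplicit false
set_option linter.unusedSectionVars false

open PowerSeries Matrix Module

namespace Pool.Agent.E8helper3.AT

open Pool.Agent.TH127.PT Pool.Agent.Y123.ST Pool.Agent.Y123.GN Pool.Agent.Y916.Af Pool.Agent.Y118.UL Pool.Agent.TH119.DR
open Pool.Agent.Y119.HZ (ix)

variable {n : ℕ}

theorem gro_SZ {Z : Matrix (Fin n) (Fin n) ℚ⟦X⟧} (hZ' : ∀ i j, Gro (Z i j)) : SZ (hZ Z) := by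
  choose C hC using hZ'
  refine ⟨∑ p : Fin n × Fin n, |C p.1 p.2|, fun i m => (hC _ _ m).trans ?_⟩
  have h1 : |C (ix n i).2 (ix n i).1| ≤ ∑ p : Fin n × Fin n, |C p.1 p.2| :=
    Finset.single_le_sum (f := fun p : Fin n × Fin n => |C p.1 p.2|) (fun p _ => abs_nonneg _)
      (Finset.mem_univ ((ix n i).2, (ix n i).1))
  calc C (ix n i).2 (ix n i).1 ^ (m + 1) ≤ |C (ix n i).2 (ix n i).1 ^ (m + 1)| := le_abs_self _
    _ = |C (ix n i).2 (ix n i).1| ^ (m + 1) := abs_pow _ _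
    _ ≤ _ := pow_le_pow_left₀ (abs_nonneg _) h1 _

theorem card_IN (r k n : ℕ) : Fintype.card (IN (Fin r ⊕ Unit) k n) = r + 1 + k * (2 + n) := by
  rw [card_IM, Fintype.card_sum, Fintype.card_fin, Fintype.card_unit, Finset.sum_const, Finset.card_univ, Fintype.card_fin,
    smul_eq_mul]

/-- **Almost all tuples.** -/
theorem main_count {N : Matrix (Fin n) (Fin n) ℤ} (hN : N ^ n = 0) {Z W : Matrix (Fin n) (Fin n) ℚ⟦X⟧} (hW : W * Z = 1)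
    (hZ' : ∀ i j, Gro (Z i j)) (hW' : ∀ i j, Gro (W i j)) (hnr : NRh (hZ Z)) (m : ℕ) (hm : 1 ≤ m) (k D r : ℕ) :
    ∃ c : ℝ, 0 < c ∧ ∃ C : ℝ, 0 ≤ C ∧ ∀ Ω : Matrix (Fin n) (Fin n) ℂ, IsUnit Ω → ∀ C₀ : Matrix (Fin r) (Fin r) ℂ,
      ∀ B : ℕ, 1 ≤ B → {ξ : ℂ | Pool.Agent.Y916.Sl.SInt m B ξ}.Finite ∧
      ({α : Fin k → ℂ | (∀ i, Pool.Agent.Y916.Sl.SInt m B (α i)) ∧ ¬ GoodL D Ω N Z C₀ α}.ncard : ℝ) ≤
        C * (B : ℝ) ^ (-c) * ({ξ : ℂ | Pool.Agent.Y916.Sl.SInt m B ξ}.ncard : ℝ) ^ k := by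
  classical
  obtain ⟨d, hd⟩ := stab_at (r + 1 + k * (2 + n))
  obtain ⟨c₁, hc₁, h₁⟩ := Pool.Agent.Y916.Sl.many m hm
  obtain ⟨c₂, hc₂, C₂, hC₂, h₂⟩ := tupT2s hnr (gro_SZ hZ') k m ((n + 1) * d) D ((r * r + n * n + 2) ^ d)
  obtain ⟨B₁, hB₁⟩ := all_cvc hZ'
  obtain ⟨B₂, hB₂⟩ := all_cvc hW'
  obtain ⟨B₃, hB31, hB₃⟩ := Pin_of hZ'
  obtain ⟨C₃, hC₃, h₃⟩ := small_tuples m k (B₁ + B₂ + B₃) (by omega)
  refine ⟨min c₂ 1, lt_min hc₂ one_pos, (C₂ + C₃) / c₁ ^ k, by positivity, ?_⟩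
  intro Ω hΩ C₀ B hB
  have hB1 : (1 : ℝ) ≤ B := by exact_mod_cast hB
  refine ⟨Pool.Agent.Y916.Sl.sint_fin m B, ?_⟩
  -- the space
  set x : ((Fin r × Fin r) ⊕ (Fin n × Fin n)) ⊕ Unit → ℂ :=
    Sum.elim (Sum.elim (fun b => C₀ b.1 b.2) fun b => Ω b.1 b.2) fun _ => tpi with hx
  set V : Submodule ℚ ℂ := Pool.Agent.Y113.sp x with hV
  obtain ⟨hVf, hVr⟩ := Pool.Agent.Y113.sp_fin x
  have hVr' : finrank ℚ V ≤ r * r + n * n + 2 := by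
    refine hVr.trans (le_of_eq ?_)
    simp only [Fintype.card_sum, Fintype.card_prod, Fintype.card_fin, Fintype.card_unit]
  obtain ⟨hp1, hp2⟩ := Pool.Agent.Y113.finrank_pow_le V d
  have h1V : (1 : ℂ) ∈ V := Pool.Agent.Y113.sp_one x
  have hC₀V : ∀ a b, wT C₀ tpi a b ∈ V := by
    rintro (a | a) (b | b)
    · exact Pool.Agent.Y113.sp_mem x (Sum.inl (Sum.inl (a, b)))
    · exact V.zero_mem
    · exact V.zero_mem
    · exact Pool.Agent.Y113.sp_mem x (Sum.inr ())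
  have hΩV : ∀ a b, Ω a b ∈ V := fun a b => Pool.Agent.Y113.sp_mem x (Sum.inl (Sum.inr (a, b)))
  have hτV : tpi ∈ V := Pool.Agent.Y113.sp_mem x (Sum.inr ())
  obtain ⟨hf, hle⟩ := h₂ (V ^ d) hp1 (hp2.trans (Nat.pow_le_pow_left hVr' _)) B hB
  have h3 := h₃ B hB
  set S1 : Set (Fin k → ℂ) := {α | (∀ i, Pool.Agent.Y916.Sl.AInt m B (α i)) ∧ ExcT (hZ Z) ((n + 1) * d) D (V ^ d) α} with hS1
  set S2 : Finset (Fin k → ℂ) := (Fintype.piFinset fun _ : Fin k => Pool.Agent.Y916.Sl.NF m B).filter fun α =>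
    ∃ i, ‖α i‖ ≤ ((B₁ + B₂ + B₃ : ℕ) : ℝ) with hS2
  have hsub : {α : Fin k → ℂ | (∀ i, Pool.Agent.Y916.Sl.SInt m B (α i)) ∧ ¬ GoodL D Ω N Z C₀ α} ⊆
      S1 ∪ (S2 : Set (Fin k → ℂ)) := by
    rintro α ⟨hα1, hα2⟩
    have hα3 : ∀ i, Pool.Agent.Y916.Sl.AInt m B (α i) := fun i => Pool.Agent.Y916.Sl.SInt.aint (hα1 i)
    by_cases hs : ∃ i, ‖α i‖ ≤ ((B₁ + B₂ + B₃ : ℕ) : ℝ)
    · right
      refine Finset.mem_coe.2 (Finset.mem_filter.2 ⟨?_, hs⟩)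
      rw [Fintype.mem_piFinset]
      exact fun i => Pool.Agent.Y916.Sl.mem_NF.2 (hα3 i)
    · left
      push Not at hs
      push_cast at hs
      refine ⟨hα3, ?_⟩
      by_contra hexc
      apply hα2
      have hb1 : (0 : ℝ) ≤ B₁ := Nat.cast_nonneg _
      have hb2 : (0 : ℝ) ≤ B₂ := Nat.cast_nonneg _
      have hb3 : (0 : ℝ) ≤ B₃ := Nat.cast_nonneg _
      refine ⟨fun i => hB₁ _ (by linarith [hs i]), fun i => vZ_unit hW (hB₁ _ (by linarith [hs i])) (hB₂ _ (by linarith [hs i])), ?_⟩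
      intro ℓ hℓ K hK hKD T hT hcT a g ha hg y hy
      exact hd (Fin r ⊕ Unit) k n (le_of_eq (card_IN r k n)) (wT C₀ tpi) Ω N Z α ℓ D V hΩ hN h1V hC₀V hΩV hτV hexc hℓ
        (fun i => hB₃ _ (by linarith [hs i])) K hK hKD T hT hcT a g ha hg y hy
  have hfin : (S1 ∪ (S2 : Set (Fin k → ℂ))).Finite := hf.union (Finset.finite_toSet _)
  have h4 : ({α : Fin k → ℂ | (∀ i, Pool.Agent.Y916.Sl.SInt m B (α i)) ∧ ¬ GoodL D Ω N Z C₀ α}.ncard : ℝ) ≤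
      (C₂ + C₃) * (B : ℝ) ^ (((k * Pool.Agent.Y916.Sl.Mm m : ℕ) : ℝ) - min c₂ 1) := by
    have h5 : ({α : Fin k → ℂ | (∀ i, Pool.Agent.Y916.Sl.SInt m B (α i)) ∧ ¬ GoodL D Ω N Z C₀ α}.ncard : ℝ) ≤
        S1.ncard + S2.card := by
      have h6 := (Set.ncard_le_ncard hsub hfin).trans (Set.ncard_union_le _ _)
      rw [Set.ncard_coe_finset] at h6
      exact_mod_cast h6
    have h6 : (B : ℝ) ^ (((k * Pool.Agent.Y916.Sl.Mm m : ℕ) : ℝ) - c₂) ≤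
        (B : ℝ) ^ (((k * Pool.Agent.Y916.Sl.Mm m : ℕ) : ℝ) - min c₂ 1) :=
      Real.rpow_le_rpow_of_exponent_le hB1 (by linarith [min_le_left c₂ 1])
    have h7 : (B : ℝ) ^ (((k * Pool.Agent.Y916.Sl.Mm m : ℕ) : ℝ) - 1) ≤
        (B : ℝ) ^ (((k * Pool.Agent.Y916.Sl.Mm m : ℕ) : ℝ) - min c₂ 1) :=
      Real.rpow_le_rpow_of_exponent_le hB1 (by linarith [min_le_right c₂ 1])
    calc _ ≤ (S1.ncard : ℝ) + S2.card := h5
      _ ≤ C₂ * (B : ℝ) ^ (((k * Pool.Agent.Y916.Sl.Mm m : ℕ) : ℝ) - min c₂ 1) +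
          C₃ * (B : ℝ) ^ (((k * Pool.Agent.Y916.Sl.Mm m : ℕ) : ℝ) - min c₂ 1) :=
        add_le_add (hle.trans (mul_le_mul_of_nonneg_left h6 hC₂)) (h3.trans (mul_le_mul_of_nonneg_left h7 hC₃))
      _ = _ := by ring
  exact h4.trans (Pool.Agent.Y916.Sl.prop_bound hc₁ (by positivity) hB (h₁ B hB))

end Pool.Agent.E8helper3.AT
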