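import Pool.Agent.E8helper3.AT.Cur

/-!
# The generic total period matrix
-/

set_option autoImplicit false
set_option linter.unusedSectionVars false

open PowerSeries Matrix Module

namespace Pool.Agent.E8helper3.AT

open Pool.Agent.TH127.PT Pool.Agent.Y123.ST Pool.Agent.Y123.GN Pool.Agent.Y916.Af Pool.Agent.Y118.UL
open Pool.Agent.Y113 (DC DC.one DC.sum DC.mul DC.pow DC.mono)
open Pool.Agent.Y916.Al (evc)
open Pool.Agent.Y119.HZ (ix)

variable {B₀ : Type} [Fintype B₀] [DecidableEq B₀] {k n : ℕ}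

/-- the index set -/
abbrev IN (B₀ : Type) (k n : ℕ) : Type := IM B₀ (fun _ : Fin k => n)

/-- the variables -/
abbrev Sg (k n : ℕ) : Type := Fin k × Option (Fin (n * n))

/-- the place of an entry -/
def pl (n : ℕ) (p : Fin n × Fin n) : Fin (n * n) := (ix n).symm (p.2, p.1)

lemma ix_pl (n : ℕ) (p : Fin n × Fin n) : ix n (pl n p) = (p.2, p.1) := Equiv.apply_symm_apply _ _

/-- the entries of `Z` as a family -/
def hZ (Z : Matrix (Fin n) (Fin n) ℚ⟦X⟧) (a : Fin (n * n)) : ℚ⟦X⟧ := Z (ix n a).2 (ix n a).1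

/-- the generic matrix of one fibre -/
noncomputable def PhiA (Ω : Matrix (Fin n) (Fin n) ℂ) (N : Matrix (Fin n) (Fin n) ℤ) (i : Fin k) :
    Matrix (Fin n) (Fin n) (MvPolynomial (Sg k n) ℂ) :=
  Ω.map MvPolynomial.C * Ex N (-MvPolynomial.X (i, none)) * Matrix.of fun a b => MvPolynomial.X (i, some (pl n (a, b)))

/-- the generic matrix of one fibre and of the Kummer motive -/
noncomputable def PhiK (Ω : Matrix (Fin n) (Fin n) ℂ) (N : Matrix (Fin n) (Fin n) ℤ) (τ : ℂ) (i : Fin k) :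
    Matrix (Fin 2 ⊕ Fin n) (Fin 2 ⊕ Fin n) (MvPolynomial (Sg k n) ℂ) :=
  fromBlocks !![1, MvPolynomial.X (i, none); 0, MvPolynomial.C τ] 0 0 (PhiA Ω N i)

/-- the generic matrix -/
noncomputable def PhiT (c₀ : Matrix B₀ B₀ ℂ) (Ω : Matrix (Fin n) (Fin n) ℂ) (N : Matrix (Fin n) (Fin n) ℤ) (τ : ℂ)
    (p : IN B₀ k n × IN B₀ k n) : MvPolynomial (Sg k n) ℂ :=
  (fromBlocks (c₀.map MvPolynomial.C) 0 0 (blockDiagonal' fun i => PhiK Ω N τ i) :
    Matrix (IN B₀ k n) (IN B₀ k n) (MvPolynomial (Sg k n) ℂ)) p.1 p.2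

theorem DCone : DC 0 (1 : Submodule ℚ ℂ) (1 : MvPolynomial (Sg k n) ℂ) := DC.one _ (Submodule.one_le.1 le_rfl)

theorem DCrat (q : ℚ) : DC 0 (1 : Submodule ℚ ℂ) (algebraMap ℚ (MvPolynomial (Sg k n) ℂ) q) := by
  classical
  have h1 : algebraMap ℚ (MvPolynomial (Sg k n) ℂ) q = MvPolynomial.C (q : ℂ) := by
    have h2 : algebraMap ℚ (MvPolynomial (Sg k n) ℂ) = (MvPolynomial.C).comp (algebraMap ℚ ℂ) := RingHom.ext_rat _ _
    rw [h2, RingHom.comp_apply, eq_ratCast]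
  rw [h1]
  refine ⟨by simp, fun s => ?_⟩
  rw [MvPolynomial.coeff_C]
  split_ifs
  · exact Submodule.mem_one.2 ⟨q, by rw [eq_ratCast]⟩
  · exact Submodule.zero_mem _

theorem DCX1 (v : Sg k n) : DC 1 (1 : Submodule ℚ ℂ) (-MvPolynomial.X v : MvPolynomial (Sg k n) ℂ) := by
  classical
  refine ⟨by rw [MvPolynomial.totalDegree_neg, MvPolynomial.totalDegree_X], fun s => ?_⟩
  rw [MvPolynomial.coeff_neg, MvPolynomial.coeff_X]
  refine Submodule.neg_mem _ ?_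
  split_ifs
  · exact Submodule.one_le.1 le_rfl
  · exact Submodule.zero_mem _

theorem Ex_DC {N : Matrix (Fin n) (Fin n) ℤ} (hN : N ^ n = 0) (v : Sg k n) (a b : Fin n) :
    DC n (1 : Submodule ℚ ℂ) (Ex N (-MvPolynomial.X v : MvPolynomial (Sg k n) ℂ) a b) := by
  rw [Ex_sum hN]
  refine DC.sum _ fun m hm => ?_
  have h1 := (DCrat (k := k) (n := n) ((m.factorial : ℚ)⁻¹)).mul (((DCX1 v).pow m).mul (DCrat (((N ^ m) a b : ℤ) : ℚ)))
  rw [map_intCast] at h1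
  simp only [one_pow, one_mul] at h1
  refine h1.mono ?_ le_rfl
  have := Finset.mem_range.1 hm
  omega

theorem PhiA_DC {W : Submodule ℚ ℂ} {Ω : Matrix (Fin n) (Fin n) ℂ} (hΩ : ∀ a b, Ω a b ∈ W)
    {N : Matrix (Fin n) (Fin n) ℤ} (hN : N ^ n = 0) (i : Fin k) (a b : Fin n) : DC (n + 1) W (PhiA Ω N i a b) := by
  unfold PhiA
  rw [Matrix.mul_apply]
  refine DC.sum _ fun c _ => ?_
  have h2 : DC n W ((Ω.map MvPolynomial.C * Ex N (-MvPolynomial.X (i, none)) :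
      Matrix (Fin n) (Fin n) (MvPolynomial (Sg k n) ℂ)) a c) := by
    rw [Matrix.mul_apply]
    refine DC.sum _ fun d _ => ?_
    have h3 : DC 0 W (MvPolynomial.C (Ω a d) : MvPolynomial (Sg k n) ℂ) := by
      classical
      refine ⟨by simp, fun s => ?_⟩
      rw [MvPolynomial.coeff_C]
      split_ifs
      · exact hΩ a d
      · exact W.zero_mem
    have h4 := h3.mul (Ex_DC (k := k) hN (i, none) d c)
    rw [mul_one, zero_add] at h4
    exact h4
  have h5 : DC 1 (1 : Submodule ℚ ℂ) (MvPolynomial.X (i, some (pl n (c, b))) : MvPolynomial (Sg k n) ℂ) :=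
    DCX (Submodule.one_le.1 le_rfl) _
  have h6 := h2.mul h5
  rw [mul_one] at h6
  exact h6

theorem PhiT_DC {W : Submodule ℚ ℂ} (h1 : (1 : ℂ) ∈ W) {c₀ : Matrix B₀ B₀ ℂ} (hc : ∀ a b, c₀ a b ∈ W)
    {Ω : Matrix (Fin n) (Fin n) ℂ} (hΩ : ∀ a b, Ω a b ∈ W) {N : Matrix (Fin n) (Fin n) ℤ} (hN : N ^ n = 0) {τ : ℂ}
    (hτ : τ ∈ W) : ∀ b : IN B₀ k n × IN B₀ k n, DC (n + 1) W (PhiT c₀ Ω N τ b) := by
  have hle : 1 ≤ n + 1 := Nat.le_add_left 1 n
  rintro ⟨a | ⟨i, a⟩, b | ⟨j, b⟩⟩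
  · exact (DCC (hc a b)).mono hle le_rfl
  · exact DC0.mono hle le_rfl
  · exact DC0.mono hle le_rfl
  · show DC (n + 1) W (blockDiagonal' (fun i => PhiK Ω N τ i) ⟨i, a⟩ ⟨j, b⟩)
    by_cases h : i = j
    · subst h
      rw [blockDiagonal'_apply_eq]
      rcases a with a | a
      · rcases b with b | b
        · fin_cases a <;> fin_cases b
          · show DC (n + 1) W (1 : MvPolynomial (Sg k n) ℂ)
            rw [← MvPolynomial.C_1]
            exact (DCC h1).mono hle le_rfl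
          · exact (DCX h1 _).mono hle le_rfl
          · exact DC0.mono hle le_rfl
          · exact (DCC hτ).mono hle le_rfl
        · exact DC0.mono hle le_rfl
      · rcases b with b | b
        · exact DC0.mono hle le_rfl
        · exact PhiA_DC hΩ hN _ _ _
    · rw [blockDiagonal'_apply_ne _ _ _ h]
      exact DC0.mono hle le_rfl

/-- the matrix of a fibre at a point -/
noncomputable def Mz (y : Sg k n → ℂ) (i : Fin k) : Matrix (Fin n) (Fin n) ℂ := Matrix.of fun a b => y (i, some (pl n (a, b)))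

theorem PhiA_eval (Ω : Matrix (Fin n) (Fin n) ℂ) {N : Matrix (Fin n) (Fin n) ℤ} (hN : N ^ n = 0) (y : Sg k n → ℂ) (i : Fin k) :
    (PhiA Ω N i).map (MvPolynomial.aeval y : MvPolynomial (Sg k n) ℂ →ₐ[ℂ] ℂ) = Ω * Ex N (-y (i, none)) * Mz y i := by
  unfold PhiA
  have hm : ∀ A B : Matrix (Fin n) (Fin n) (MvPolynomial (Sg k n) ℂ),
      (A * B).map (MvPolynomial.aeval y : MvPolynomial (Sg k n) ℂ →ₐ[ℂ] ℂ) =
        A.map (MvPolynomial.aeval y : MvPolynomial (Sg k n) ℂ →ₐ[ℂ] ℂ) *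
          B.map (MvPolynomial.aeval y : MvPolynomial (Sg k n) ℂ →ₐ[ℂ] ℂ) := fun A B =>
    Matrix.map_mul (f := (MvPolynomial.aeval y : MvPolynomial (Sg k n) ℂ →ₐ[ℂ] ℂ).toRingHom)
  have hE : (Ex N (-MvPolynomial.X (i, none))).map (MvPolynomial.aeval y : MvPolynomial (Sg k n) ℂ →ₐ[ℂ] ℂ) =
      Ex N (-y (i, none)) := by
    have h1 := Ex_map hN (MvPolynomial.aeval y : MvPolynomial (Sg k n) ℂ →ₐ[ℂ] ℂ).toRingHom (-MvPolynomial.X (i, none))
    refine h1.trans ?_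
    show Ex N (MvPolynomial.aeval y (-MvPolynomial.X (i, none))) = _
    rw [map_neg, MvPolynomial.aeval_X]
  rw [hm, hm, hE]
  congr 1
  · congr 1
    ext a b
    show MvPolynomial.aeval y (MvPolynomial.C (Ω a b)) = Ω a b
    rw [MvPolynomial.aeval_C]
    rfl
  · ext a b
    show MvPolynomial.aeval y (MvPolynomial.X (i, some (pl n (a, b)))) = y (i, some (pl n (a, b)))
    rw [MvPolynomial.aeval_X]

theorem PhiT_eval (c₀ : Matrix B₀ B₀ ℂ) (Ω : Matrix (Fin n) (Fin n) ℂ) {N : Matrix (Fin n) (Fin n) ℤ} (hN : N ^ n = 0)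
    (τ : ℂ) (y : Sg k n → ℂ) (b : IN B₀ k n × IN B₀ k n) :
    fl (EM c₀ (fun i => kum (y (i, none)) τ) fun i => Ω * Ex N (-y (i, none)) * Mz y i) b =
      MvPolynomial.aeval y (PhiT c₀ Ω N τ b) := by
  obtain ⟨a | ⟨i, a⟩, b | ⟨j, b⟩⟩ := b
  · show c₀ a b = MvPolynomial.aeval y (MvPolynomial.C (c₀ a b))
    rw [MvPolynomial.aeval_C]
    rfl
  · show (0 : ℂ) = MvPolynomial.aeval y 0
    rw [map_zero]
  · show (0 : ℂ) = MvPolynomial.aeval y 0
    rw [map_zero]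
  · show blockDiagonal' (fun i => fromBlocks (kum (y (i, none)) τ) 0 0 (Ω * Ex N (-y (i, none)) * Mz y i)) ⟨i, a⟩ ⟨j, b⟩ =
      MvPolynomial.aeval y (blockDiagonal' (fun i => PhiK Ω N τ i) ⟨i, a⟩ ⟨j, b⟩)
    by_cases h : i = j
    · subst h
      rw [blockDiagonal'_apply_eq, blockDiagonal'_apply_eq]
      rcases a with a | a
      · rcases b with b | b
        · fin_cases a <;> fin_cases b
          · show (1 : ℂ) = MvPolynomial.aeval y (1 : MvPolynomial (Sg k n) ℂ)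
            rw [map_one]
          · show y (i, none) = MvPolynomial.aeval y (MvPolynomial.X (i, none))
            rw [MvPolynomial.aeval_X]
          · show (0 : ℂ) = MvPolynomial.aeval y (0 : MvPolynomial (Sg k n) ℂ)
            rw [map_zero]
          · show τ = MvPolynomial.aeval y (MvPolynomial.C τ)
            rw [MvPolynomial.aeval_C]
            rfl
        · show (0 : ℂ) = MvPolynomial.aeval y (0 : MvPolynomial (Sg k n) ℂ)
          rw [map_zero]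
      · rcases b with b | b
        · show (0 : ℂ) = MvPolynomial.aeval y (0 : MvPolynomial (Sg k n) ℂ)
          rw [map_zero]
        · exact (congrFun (congrFun (PhiA_eval Ω hN y i) a) b).symm
    · rw [blockDiagonal'_apply_ne _ _ _ h, blockDiagonal'_apply_ne _ _ _ h, map_zero]

/-- the matrix `Z(1/α)` -/
noncomputable def vZ (Z : Matrix (Fin n) (Fin n) ℚ⟦X⟧) (α : ℂ) : Matrix (Fin n) (Fin n) ℂ :=
  Matrix.of fun a b => evc (1 / α) (Z a b)

/-- the period matrix -/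
noncomputable def per (Ω : Matrix (Fin n) (Fin n) ℂ) (N : Matrix (Fin n) (Fin n) ℤ) (Z : Matrix (Fin n) (Fin n) ℚ⟦X⟧)
    (α ℓ : ℂ) : Matrix (Fin n) (Fin n) ℂ := Ω * Ex N (-ℓ) * vZ Z α

/-- the total period matrix -/
noncomputable def tot (c₀ : Matrix B₀ B₀ ℂ) (Ω : Matrix (Fin n) (Fin n) ℂ) (N : Matrix (Fin n) (Fin n) ℤ)
    (Z : Matrix (Fin n) (Fin n) ℚ⟦X⟧) (α ℓ : Fin k → ℂ) : Matrix (IN B₀ k n) (IN B₀ k n) ℂ :=
  EM c₀ (fun i => kum (ℓ i) tpi) fun i => per Ω N Z (α i) (ℓ i)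

theorem Mz_ptc (Z : Matrix (Fin n) (Fin n) ℚ⟦X⟧) (α ℓ : Fin k → ℂ) (i : Fin k) : Mz (ptc (hZ Z) α ℓ) i = vZ Z (α i) := by
  ext a b
  show evc (1 / α i) (Z (ix n (pl n (a, b))).2 (ix n (pl n (a, b))).1) = _
  rw [ix_pl]
  rfl

theorem tot_eval (c₀ : Matrix B₀ B₀ ℂ) (Ω : Matrix (Fin n) (Fin n) ℂ) {N : Matrix (Fin n) (Fin n) ℤ} (hN : N ^ n = 0)
    (Z : Matrix (Fin n) (Fin n) ℚ⟦X⟧) (α ℓ : Fin k → ℂ) (b : IN B₀ k n × IN B₀ k n) :
    fl (tot c₀ Ω N Z α ℓ) b = MvPolynomial.aeval (ptc (hZ Z) α ℓ) (PhiT c₀ Ω N tpi b) := by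
  rw [← PhiT_eval c₀ Ω hN]
  simp only [Mz_ptc]
  rfl

end Pool.Agent.E8helper3.AT
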