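import Pool.Agent.E8helper3.AT.Fin

/-!
# The entries of a fundamental matrix as a family of G-functions
-/

set_option autoImplicit false
set_option linter.unusedSectionVars false

open PowerSeries Matrix Module

namespace Pool.Agent.E8helper3.AT

variable {n : ℕ}

/-- an integer polynomial as a power series -/
noncomputable def tQ (P : Polynomial ℤ) : PowerSeries ℚ := ((P.map (Int.castRingHom ℚ) : Polynomial ℚ) : PowerSeries ℚ)

/-- The arithmetic conditions in the definition of a G-function. -/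
def GC (g : ℚ⟦X⟧) : Prop := ∃ C : ℝ, (∀ m, |((coeff m g : ℚ) : ℝ)| ≤ C ^ (m + 1)) ∧
  ∀ m, ∃ d : ℕ, 0 < d ∧ (d : ℝ) ≤ C ^ (m + 1) ∧ ∀ j ≤ m, ∃ a : ℤ, (d : ℚ) * coeff j g = a

theorem GC.gro {g : ℚ⟦X⟧} (h : GC g) : Gro g := by
  obtain ⟨C, hC, -⟩ := h
  exact ⟨C, hC⟩

/-- the family of the entries of `Z` -/
theorem gfs (T : Polynomial ℤ) (A : Matrix (Fin n) (Fin n) (Polynomial ℤ)) (N : Matrix (Fin n) (Fin n) ℤ)
    (Z W : Matrix (Fin n) (Fin n) ℚ⟦X⟧) (hT : T ≠ 0) (hN : N ^ n = 0)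
    (hode : ∀ i j, tQ T * (X * PowerSeries.derivative ℚ (Z i j) + ∑ k, C (N i k : ℚ) * Z k j) = ∑ k, Z i k * tQ (A k j))
    (hZ0 : ∀ i j, coeff 0 (Z i j) = if i = j then 1 else 0) (hW : W * Z = 1)
    (hGZ : ∀ i j, GC (Z i j)) (hGW : ∀ i j, GC (W i j)) :
    Pool.Agent.Y916.Af.GFs (Polynomial.X * T)
      (fun a c => Pool.Agent.Y119.HZ.A3 T (fun i k => A k i) (fun i j => N j i) (Pool.Agent.Y119.HZ.ix n a) (Pool.Agent.Y119.HZ.ix n c))
      (hZ Z) := by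
  have hG : ∀ g : ℚ⟦X⟧, GC g → Y113.SDc g := by
    rintro g ⟨C, h1, h2⟩
    have hC : 1 ≤ C := by
      obtain ⟨d, hd0, hd, -⟩ := h2 0
      have : (1 : ℝ) ≤ d := by exact_mod_cast hd0
      simpa using this.trans hd
    obtain ⟨a, ha⟩ := Y678.HG.exists_two_pow C
    refine ⟨a, fun m => (h1 m).trans (pow_le_pow_left₀ (by linarith) ha _), fun m => ?_⟩
    obtain ⟨d, hd0, hd, hd'⟩ := h2 m
    exact ⟨d, hd0, hd.trans (pow_le_pow_left₀ (by linarith) ha _), hd'⟩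
  set H : Matrix (Fin n) (Fin n) ℚ⟦X⟧ := Matrix.of fun i j => Z j i with hH
  set W' : Matrix (Fin n) (Fin n) ℚ⟦X⟧ := Matrix.of fun i j => W j i with hW'
  set N' : Matrix (Fin n) (Fin n) ℚ := (N.transpose).map (Int.castRingHom ℚ) with hN'
  have hN0 : N' ^ n = 0 := by
    have h1 := map_pow (RingHom.mapMatrix (Int.castRingHom ℚ)) N.transpose n
    rw [← Matrix.transpose_pow, hN, Matrix.transpose_zero, map_zero] at h1
    exact h1.symm
  have hNz : ∀ i j, (((fun i j => N j i) i j : ℤ) : ℚ) = N' i j := fun i j => rfl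
  have hHW : H * W' = 1 := by
    funext i j
    have h1 : (W * Z) j i = (1 : Matrix (Fin n) (Fin n) ℚ⟦X⟧) j i := by rw [hW]
    rw [Matrix.mul_apply] at h1 ⊢
    rw [Matrix.one_apply] at h1 ⊢
    have h2 : (if i = j then (1 : ℚ⟦X⟧) else 0) = if j = i then 1 else 0 := by
      simp only [eq_comm]
    rw [h2, ← h1]
    exact Finset.sum_congr rfl fun k _ => mul_comm _ _
  have h0 : ∀ i j, coeff 0 (H i j) = if i = j then 1 else 0 := by
    intro i j
    have h2 : (if i = j then (1 : ℚ) else 0) = if j = i then 1 else 0 := by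
      simp only [eq_comm]
    rw [h2]
    exact hZ0 j i
  have hode' : ∀ i j, Y113.ps T * (X * d⁄dX ℚ (H i j) + ∑ k, H i k * C (N' k j)) = ∑ k, Y113.ps ((fun i k => A k i) i k) * H k j := by
    intro i j
    have h1 := hode j i
    have h2 : ∑ k, H i k * C (N' k j) = ∑ k, C (N j k : ℚ) * Z k i := Finset.sum_congr rfl fun k _ => mul_comm _ _
    have h3 : ∑ k, Y113.ps ((fun i k => A k i) i k) * H k j = ∑ k, Z j k * tQ (A k i) :=
      Finset.sum_congr rfl fun k _ => mul_comm _ _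
    rw [h2, h3, ← h1]
    rfl
  have hHs : ∀ i j, Y113.SDc (H i j) := fun i j => hG _ (hGZ j i)
  have hWs : ∀ i j, Y113.SDc (W' i j) := fun i j => hG _ (hGW j i)
  obtain ⟨q, C, hGS⟩ := Pool.Agent.Y119.HZ.gsysL hN0 hHW hode' hHs hWs
  refine ⟨mul_ne_zero Polynomial.X_ne_zero hT, fun i => ?_, gro_SZ fun i j => (hGZ i j).gro,
    ⟨q, C, hGS.reindex (Pool.Agent.Y119.HZ.ix n)⟩, Pool.Agent.Y119.HZ.qu_gen hN0 hNz h0 hode' hHs⟩
  have h1 := Pool.Agent.Y119.HZ.ode_A3 hNz hode' (Pool.Agent.Y119.HZ.ix n i)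
  have h2 : ∑ j : Fin (n * n), Y113.ps (Pool.Agent.Y119.HZ.A3 T (fun i k => A k i) (fun i j => N j i) (Pool.Agent.Y119.HZ.ix n i)
      (Pool.Agent.Y119.HZ.ix n j)) * H (Pool.Agent.Y119.HZ.ix n j).1 (Pool.Agent.Y119.HZ.ix n j).2 =
      ∑ q, Y113.ps (Pool.Agent.Y119.HZ.A3 T (fun i k => A k i) (fun i j => N j i) (Pool.Agent.Y119.HZ.ix n i) q) * H q.1 q.2 :=
    Equiv.sum_comp (Pool.Agent.Y119.HZ.ix n) fun q =>
      Y113.ps (Pool.Agent.Y119.HZ.A3 T (fun i k => A k i) (fun i j => N j i) (Pool.Agent.Y119.HZ.ix n i) q) * H q.1 q.2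
  exact h1.trans h2.symm

end Pool.Agent.E8helper3.AT
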