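import Pool.Agent.E8helper3.AT.Spec
import Pool.Agent.Y123.GN.C4

/-!
# The formal Galois group of a period matrix `Ω exp (N log x) Z(x)`
-/

set_option autoImplicit false
set_option linter.unusedSectionVars false

open PowerSeries Matrix

namespace Pool.Agent.E8helper3.AT

variable {n : ℕ}

section exp

variable {R S : Type*} [CommRing R] [Algebra ℚ R] [CommRing S] [Algebra ℚ S]

/-- the matrix `exp (s N)` -/
noncomputable def Ex (N : Matrix (Fin n) (Fin n) ℤ) (s : R) : Matrix (Fin n) (Fin n) R :=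
  IsNilpotent.exp (s • N.map (Int.castRingHom R))

theorem Nmap {N : Matrix (Fin n) (Fin n) ℤ} (hN : N ^ n = 0) : (N.map (Int.castRingHom R)) ^ n = 0 := by
  have h1 := map_pow (RingHom.mapMatrix (Int.castRingHom R)) N n
  rw [hN, map_zero] at h1
  exact h1.symm

theorem Nnil {N : Matrix (Fin n) (Fin n) ℤ} (hN : N ^ n = 0) (s : R) : IsNilpotent (s • N.map (Int.castRingHom R)) :=
  ⟨n, by rw [smul_pow, Nmap hN, smul_zero]⟩

theorem Ex_map {N : Matrix (Fin n) (Fin n) ℤ} (hN : N ^ n = 0) (φ : R →+* S) (s : R) :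
    (Ex N s).map φ = Ex N (φ s) := by
  unfold Ex
  have h1 := IsNilpotent.map_exp (Nnil hN s) (RingHom.mapMatrix (m := Fin n) φ)
  have h2 : RingHom.mapMatrix (m := Fin n) φ (s • N.map (Int.castRingHom R)) = φ s • N.map (Int.castRingHom S) := by
    ext i j
    show φ (s * ((N i j : ℤ) : R)) = φ s * ((N i j : ℤ) : S)
    rw [map_mul, map_intCast]
  rw [h2] at h1
  exact h1

theorem Ex_add {N : Matrix (Fin n) (Fin n) ℤ} (hN : N ^ n = 0) (s t : R) : Ex N (s + t) = Ex N s * Ex N t := by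
  unfold Ex
  rw [add_smul]
  exact IsNilpotent.exp_add_of_commute (((Commute.refl _).smul_left _).smul_right _) (Nnil hN s) (Nnil hN t)

theorem Ex_zero (N : Matrix (Fin n) (Fin n) ℤ) : Ex N (0 : R) = 1 := by
  unfold Ex
  rw [zero_smul, IsNilpotent.exp_zero]

theorem Ex_mul_neg {N : Matrix (Fin n) (Fin n) ℤ} (hN : N ^ n = 0) (s : R) : Ex N s * Ex N (-s) = 1 := by
  rw [← Ex_add hN, add_neg_cancel, Ex_zero]

theorem Ex_neg_mul {N : Matrix (Fin n) (Fin n) ℤ} (hN : N ^ n = 0) (s : R) : Ex N (-s) * Ex N s = 1 := by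
  rw [← Ex_add hN, neg_add_cancel, Ex_zero]

theorem Ex_sum {N : Matrix (Fin n) (Fin n) ℤ} (hN : N ^ n = 0) (s : R) (i j : Fin n) :
    Ex N s i j = ∑ m ∈ Finset.range n, algebraMap ℚ R ((m.factorial : ℚ)⁻¹) * (s ^ m * (((N ^ m) i j : ℤ) : R)) := by
  unfold Ex
  have h1 : (s • N.map (Int.castRingHom R)) ^ n = 0 := by rw [smul_pow, Nmap hN, smul_zero]
  rw [IsNilpotent.exp_eq_sum h1, Matrix.sum_apply]
  refine Finset.sum_congr rfl fun m _ => ?_
  rw [Matrix.smul_apply, smul_pow, Matrix.smul_apply, Algebra.smul_def, smul_eq_mul]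
  congr 2
  have h2 := map_pow (RingHom.mapMatrix (Int.castRingHom R)) N m
  have h3 := congrFun (congrFun h2 i) j
  exact h3.symm

end exp

/-- the variables: the logarithm, `x` and the entries of a matrix -/
abbrev Vn (n : ℕ) : Type := Option (Option (Fin n × Fin n))

/-- a point -/
def pt {S : Type*} (l x : S) (y : Matrix (Fin n) (Fin n) S) : Vn n → S :=
  fun o => o.elim l fun o => o.elim x fun p => y p.1 p.2

/-- the formal matrix `Ω exp (N log x) Z(x)` -/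
noncomputable def Pf (Ω : Matrix (Fin n) (Fin n) ℂ) (N : Matrix (Fin n) (Fin n) ℤ) (Z : Matrix (Fin n) (Fin n) ℚ⟦X⟧) :
    Matrix (Fin n) (Fin n) (Polynomial ℂ⟦X⟧) :=
  Ω.map (algebraMap ℂ (Polynomial ℂ⟦X⟧)) * Ex N Polynomial.X * Z.map fun f => Polynomial.C (emb f)

/-- `g` preserves the relations -/
def Pres (Ω : Matrix (Fin n) (Fin n) ℂ) (N : Matrix (Fin n) (Fin n) ℤ) (Z : Matrix (Fin n) (Fin n) ℚ⟦X⟧)
    (g : Matrix (Fin n) (Fin n) ℂ) : Prop :=
  ∀ F : MvPolynomial (Vn n) ℂ, MvPolynomial.aeval (pt Polynomial.X (Polynomial.C (X : ℂ⟦X⟧)) (Pf Ω N Z)) F = 0 →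
    MvPolynomial.aeval (pt Polynomial.X (Polynomial.C (X : ℂ⟦X⟧)) (g.map (algebraMap ℂ (Polynomial ℂ⟦X⟧)) * Pf Ω N Z)) F = 0

section gen

variable {S : Type*} [CommRing S] [Algebra ℂ S] [Algebra ℚ S]

/-- the generic matrix -/
noncomputable def Yg (n : ℕ) : Matrix (Fin n) (Fin n) (MvPolynomial (Vn n) ℂ) :=
  Matrix.of fun a b => MvPolynomial.X (some (some (a, b)))

/-- substitution into a relation over `ℚ[x]` -/
noncomputable def sub (M : Matrix (Fin n) (Fin n) (MvPolynomial (Vn n) ℂ)) (R : MvPolynomial (Fin n × Fin n) (Polynomial ℚ)) :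
    MvPolynomial (Vn n) ℂ :=
  MvPolynomial.eval₂ (Polynomial.aeval (MvPolynomial.X (some none)) : Polynomial ℚ →ₐ[ℚ] MvPolynomial (Vn n) ℂ).toRingHom
    (fun p => M p.1 p.2) R

theorem sub_aeval (l x : S) (y : Matrix (Fin n) (Fin n) S) (M : Matrix (Fin n) (Fin n) (MvPolynomial (Vn n) ℂ))
    (R : MvPolynomial (Fin n × Fin n) (Polynomial ℚ)) :
    MvPolynomial.aeval (pt l x y) (sub M R) = MvPolynomial.eval₂ (Polynomial.aeval x : Polynomial ℚ →ₐ[ℚ] S).toRingHom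
      (fun p => (M.map (MvPolynomial.aeval (pt l x y) : MvPolynomial (Vn n) ℂ →ₐ[ℂ] S)) p.1 p.2) R := by
  unfold sub
  induction R using MvPolynomial.induction_on with
  | C a =>
    rw [MvPolynomial.eval₂_C, MvPolynomial.eval₂_C]
    show (MvPolynomial.aeval (pt l x y) : MvPolynomial (Vn n) ℂ →ₐ[ℂ] S) (Polynomial.aeval (MvPolynomial.X (some none)) a) =
      Polynomial.aeval x a
    induction a using Polynomial.induction_on' with
    | add p q hp hq => rw [map_add, map_add, map_add, hp, hq]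
    | monomial m c =>
      rw [Polynomial.aeval_monomial, Polynomial.aeval_monomial, map_mul, map_pow, MvPolynomial.aeval_X]
      congr 1
      have h1 : ((MvPolynomial.aeval (pt l x y) : MvPolynomial (Vn n) ℂ →ₐ[ℂ] S).toRingHom.comp
        (algebraMap ℚ (MvPolynomial (Vn n) ℂ))) = algebraMap ℚ S := RingHom.ext_rat _ _
      exact congrFun (congrArg DFunLike.coe h1) c
  | add p q hp hq => rw [MvPolynomial.eval₂_add, MvPolynomial.eval₂_add, map_add, hp, hq]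
  | mul_X p o hp =>
    rw [MvPolynomial.eval₂_mul, MvPolynomial.eval₂_mul, map_mul, hp, MvPolynomial.eval₂_X, MvPolynomial.eval₂_X]
    rfl

theorem Yg_map (l x : S) (y : Matrix (Fin n) (Fin n) S) :
    (Yg n).map (MvPolynomial.aeval (pt l x y) : MvPolynomial (Vn n) ℂ →ₐ[ℂ] S) = y := by
  ext a b
  show (MvPolynomial.aeval (pt l x y) : MvPolynomial (Vn n) ℂ →ₐ[ℂ] S) (MvPolynomial.X (some (some (a, b)))) = y a b
  rw [MvPolynomial.aeval_X]
  rfl

theorem C_map (l x : S) (y : Matrix (Fin n) (Fin n) S) (A : Matrix (Fin n) (Fin n) ℂ) :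
    (A.map (algebraMap ℂ (MvPolynomial (Vn n) ℂ))).map (MvPolynomial.aeval (pt l x y) : MvPolynomial (Vn n) ℂ →ₐ[ℂ] S) =
      A.map (algebraMap ℂ S) := by
  ext a b
  show (MvPolynomial.aeval (pt l x y) : MvPolynomial (Vn n) ℂ →ₐ[ℂ] S) (algebraMap ℂ (MvPolynomial (Vn n) ℂ) (A a b)) = _
  rw [AlgHom.commutes]
  rfl

theorem mapmul (f : MvPolynomial (Vn n) ℂ →ₐ[ℂ] S) (A B : Matrix (Fin n) (Fin n) (MvPolynomial (Vn n) ℂ)) :
    (A * B).map f = A.map f * B.map f := Matrix.map_mul (f := f.toRingHom)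

/-- the generic matrix `exp (- N log x) A exp (N log x) y` -/
noncomputable def Mg (N : Matrix (Fin n) (Fin n) ℤ) (A : Matrix (Fin n) (Fin n) ℂ) :
    Matrix (Fin n) (Fin n) (MvPolynomial (Vn n) ℂ) :=
  Ex N (-MvPolynomial.X none) * A.map (algebraMap ℂ (MvPolynomial (Vn n) ℂ)) * Ex N (MvPolynomial.X none) * Yg n

theorem Mg_map {N : Matrix (Fin n) (Fin n) ℤ} (hN : N ^ n = 0) (A : Matrix (Fin n) (Fin n) ℂ) (l x : S)
    (y : Matrix (Fin n) (Fin n) S) :
    (Mg N A).map (MvPolynomial.aeval (pt l x y) : MvPolynomial (Vn n) ℂ →ₐ[ℂ] S) =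
      Ex N (-l) * A.map (algebraMap ℂ S) * Ex N l * y := by
  have h1 : ∀ z : MvPolynomial (Vn n) ℂ, (Ex N z).map (MvPolynomial.aeval (pt l x y) : MvPolynomial (Vn n) ℂ →ₐ[ℂ] S) =
      Ex N (MvPolynomial.aeval (pt l x y) z) := fun z =>
    Ex_map hN (MvPolynomial.aeval (pt l x y) : MvPolynomial (Vn n) ℂ →ₐ[ℂ] S).toRingHom z
  unfold Mg
  rw [mapmul, mapmul, mapmul, Yg_map, C_map, h1, h1, map_neg, MvPolynomial.aeval_X]
  rfl

/-- the generic matrix `exp (- N log x) A y` -/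
noncomputable def Mf (N : Matrix (Fin n) (Fin n) ℤ) (A : Matrix (Fin n) (Fin n) ℂ) :
    Matrix (Fin n) (Fin n) (MvPolynomial (Vn n) ℂ) :=
  Ex N (-MvPolynomial.X none) * A.map (algebraMap ℂ (MvPolynomial (Vn n) ℂ)) * Yg n

theorem Mf_map {N : Matrix (Fin n) (Fin n) ℤ} (hN : N ^ n = 0) (A : Matrix (Fin n) (Fin n) ℂ) (l x : S)
    (y : Matrix (Fin n) (Fin n) S) :
    (Mf N A).map (MvPolynomial.aeval (pt l x y) : MvPolynomial (Vn n) ℂ →ₐ[ℂ] S) =
      Ex N (-l) * A.map (algebraMap ℂ S) * y := by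
  have h1 : ∀ z : MvPolynomial (Vn n) ℂ, (Ex N z).map (MvPolynomial.aeval (pt l x y) : MvPolynomial (Vn n) ℂ →ₐ[ℂ] S) =
      Ex N (MvPolynomial.aeval (pt l x y) z) := fun z =>
    Ex_map hN (MvPolynomial.aeval (pt l x y) : MvPolynomial (Vn n) ℂ →ₐ[ℂ] S).toRingHom z
  unfold Mf
  rw [mapmul, mapmul, Yg_map, C_map, h1, map_neg, MvPolynomial.aeval_X]
  rfl

end gen

/-- the entries of `Z` as a family -/
def ent (Z : Matrix (Fin n) (Fin n) ℚ⟦X⟧) (p : Fin n × Fin n) : ℚ⟦X⟧ := Z p.1 p.2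

theorem fc_pt (Z : Matrix (Fin n) (Fin n) ℚ⟦X⟧) :
    fc (ent Z) = pt Polynomial.X (Polynomial.C (X : ℂ⟦X⟧)) (Z.map fun f => Polynomial.C (emb f)) := by
  funext o
  rcases o with _ | _ | p <;> rfl

theorem eval_emb (Z : Matrix (Fin n) (Fin n) ℚ⟦X⟧) (R : MvPolynomial (Fin n × Fin n) (Polynomial ℚ)) :
    MvPolynomial.eval₂ (Polynomial.aeval (Polynomial.C (X : ℂ⟦X⟧)) : Polynomial ℚ →ₐ[ℚ] Polynomial ℂ⟦X⟧).toRingHom
      (fun p => (Z.map fun f => Polynomial.C (emb f)) p.1 p.2) R = Polynomial.C (emb (MvPolynomial.aeval (ent Z) R)) := by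
  induction R using MvPolynomial.induction_on with
  | C a =>
    rw [MvPolynomial.eval₂_C, MvPolynomial.aeval_C, PowerSeries.algebraMap_apply']
    have h0 : (algebraMap ℚ ℚ) = RingHom.id ℚ := rfl
    rw [h0, PowerSeries.map_id, id]
    show Polynomial.aeval (Polynomial.C (X : ℂ⟦X⟧)) a = _
    induction a using Polynomial.induction_on' with
    | add p q hp hq => rw [map_add, hp, hq, Polynomial.coe_add, map_add, map_add]
    | monomial m c =>
      rw [Polynomial.aeval_monomial, Polynomial.coe_monomial]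
      have h1 : (PowerSeries.monomial m) c = (C c : ℚ⟦X⟧) * X ^ m := by
        rw [PowerSeries.monomial_eq_mk, ← PowerSeries.monomial_zero_eq_C_apply, PowerSeries.X_pow_eq]
        rw [PowerSeries.monomial_mul_monomial, zero_add, mul_one, PowerSeries.monomial_eq_mk]
      rw [h1, map_mul, map_mul, map_pow]
      have h2 : emb (X : ℚ⟦X⟧) = X := by
        unfold emb
        rw [PowerSeries.map_X]
      have h3 : algebraMap ℚ (Polynomial ℂ⟦X⟧) c = Polynomial.C (emb (C c)) := by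
        have h4 : algebraMap ℚ (Polynomial ℂ⟦X⟧) = (Polynomial.C.comp emb).comp (C : ℚ →+* ℚ⟦X⟧) := RingHom.ext_rat _ _
        exact congrFun (congrArg DFunLike.coe h4) c
      rw [h2, h3, map_pow]
  | add p q hp hq => rw [MvPolynomial.eval₂_add, hp, hq, map_add, map_add, map_add]
  | mul_X p o hp =>
    rw [MvPolynomial.eval₂_mul, hp, MvPolynomial.eval₂_X, map_mul, map_mul, map_mul, MvPolynomial.aeval_X]
    rfl

theorem gen1 {S : Type*} [CommRing S] [Algebra ℚ S] {N : Matrix (Fin n) (Fin n) ℤ} (hN : N ^ n = 0) (s : S)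
    {Oi O : Matrix (Fin n) (Fin n) S} (h : Oi * O = 1) (Z : Matrix (Fin n) (Fin n) S) :
    Ex N (-s) * Oi * (O * Ex N s * Z) = Z := by
  calc Ex N (-s) * Oi * (O * Ex N s * Z) = Ex N (-s) * (Oi * O) * Ex N s * Z := by simp only [Matrix.mul_assoc]
    _ = Z := by rw [h, Matrix.mul_one, Ex_neg_mul hN, Matrix.one_mul]

theorem gen2 {S : Type*} [CommRing S] [Algebra ℚ S] {N : Matrix (Fin n) (Fin n) ℤ} (s : S)
    (Oi g O : Matrix (Fin n) (Fin n) S) (Z : Matrix (Fin n) (Fin n) S) :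
    Ex N (-s) * (Oi * g * O) * Ex N s * Z = Ex N (-s) * Oi * (g * (O * Ex N s * Z)) := by
  simp only [Matrix.mul_assoc]

/-- constants -/
noncomputable def cc (A : Matrix (Fin n) (Fin n) ℂ) : Matrix (Fin n) (Fin n) (Polynomial ℂ⟦X⟧) :=
  A.map (algebraMap ℂ (Polynomial ℂ⟦X⟧))

theorem cc_mul (A B : Matrix (Fin n) (Fin n) ℂ) : cc (A * B) = cc A * cc B := Matrix.map_mul

theorem cc_one : cc (1 : Matrix (Fin n) (Fin n) ℂ) = 1 := Matrix.map_one _ (map_zero _) (map_one _)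

/-- the formal matrix `Z` -/
noncomputable def Zc (Z : Matrix (Fin n) (Fin n) ℚ⟦X⟧) : Matrix (Fin n) (Fin n) (Polynomial ℂ⟦X⟧) :=
  Z.map fun f => Polynomial.C (emb f)

theorem Pf_eq (Ω : Matrix (Fin n) (Fin n) ℂ) (N : Matrix (Fin n) (Fin n) ℤ) (Z : Matrix (Fin n) (Fin n) ℚ⟦X⟧) :
    Pf Ω N Z = cc Ω * Ex N Polynomial.X * Zc Z := rfl

theorem ev_congr {S : Type*} [CommRing S] (f : Polynomial ℚ →+* S) {M M' : Matrix (Fin n) (Fin n) S} (h : M = M')
    (R : MvPolynomial (Fin n × Fin n) (Polynomial ℚ)) :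
    MvPolynomial.eval₂ f (fun p => M p.1 p.2) R = MvPolynomial.eval₂ f (fun p => M' p.1 p.2) R := by rw [h]

set_option maxHeartbeats 2000000 in
/-- **the Galois group acts on the fibres** -/
theorem act {Ω : Matrix (Fin n) (Fin n) ℂ} (hΩ : IsUnit Ω) {N : Matrix (Fin n) (Fin n) ℤ} (hN : N ^ n = 0)
    {Z : Matrix (Fin n) (Fin n) ℚ⟦X⟧} {g : Matrix (Fin n) (Fin n) ℂ} (hg : Pres Ω N Z g) {x₀ : ℂ}
    {z : Matrix (Fin n) (Fin n) ℂ} (hz : SpecP (ent Z) x₀ fun p => z p.1 p.2) (s : ℂ) :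
    SpecP (ent Z) x₀ fun p => (Ex N (-s) * (Ω⁻¹ * g * Ω) * Ex N s * z) p.1 p.2 := by
  intro R hR
  have hdet := (Matrix.isUnit_iff_isUnit_det _).1 hΩ
  have hΩΩ : cc Ω⁻¹ * cc Ω = 1 := by rw [← cc_mul, Matrix.nonsing_inv_mul _ hdet, cc_one]
  -- the relation for the period matrix
  have h2 : Ex N (-Polynomial.X) * cc Ω⁻¹ * Pf Ω N Z = Zc Z := by
    rw [Pf_eq]
    exact gen1 hN _ hΩΩ _
  have h1 : MvPolynomial.aeval (pt Polynomial.X (Polynomial.C (X : ℂ⟦X⟧)) (Pf Ω N Z)) (sub (Mf N Ω⁻¹) R) = 0 := by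
    rw [sub_aeval, Mf_map hN]
    refine (ev_congr _ h2 R).trans ?_
    have h3 := eval_emb Z R
    rw [hR, map_zero, map_zero] at h3
    exact h3
  have h3 := hg _ h1
  rw [sub_aeval, Mf_map hN] at h3
  -- the same as a relation for `Z`
  have h7 : Ex N (-Polynomial.X) * cc (Ω⁻¹ * g * Ω) * Ex N Polynomial.X * Zc Z =
      Ex N (-Polynomial.X) * cc Ω⁻¹ * (cc g * Pf Ω N Z) := by
    rw [Pf_eq, cc_mul, cc_mul]
    exact gen2 _ _ _ _ _
  have h4 : MvPolynomial.aeval (fc (ent Z)) (sub (Mg N (Ω⁻¹ * g * Ω)) R) = 0 := by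
    rw [fc_pt, sub_aeval, Mg_map hN]
    exact (ev_congr _ h7 R).trans h3
  have h5 := spec_main hz _ h4 s
  have h6 : (fun o : Option (Option (Fin n × Fin n)) => o.elim s fun o => o.elim x₀ fun p => z p.1 p.2) = pt s x₀ z := rfl
  rw [h6, sub_aeval, Mg_map hN] at h5
  exact h5

end Pool.Agent.E8helper3.AT

namespace Pool.Agent.E8helper3.AT

open PowerSeries Matrix

variable {n : ℕ}

theorem Pres_one (Ω : Matrix (Fin n) (Fin n) ℂ) (N : Matrix (Fin n) (Fin n) ℤ) (Z : Matrix (Fin n) (Fin n) ℚ⟦X⟧) :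
    Pres Ω N Z 1 := by
  intro F hF
  have h1 : (1 : Matrix (Fin n) (Fin n) ℂ).map (algebraMap ℂ (Polynomial ℂ⟦X⟧)) = 1 := Matrix.map_one _ (map_zero _) (map_one _)
  rw [h1, Matrix.one_mul]
  exact hF

/-- the substitution `y ↦ g y` -/
noncomputable def sg (g : Matrix (Fin n) (Fin n) ℂ) (F : MvPolynomial (Vn n) ℂ) : MvPolynomial (Vn n) ℂ :=
  MvPolynomial.aeval (pt (MvPolynomial.X none) (MvPolynomial.X (some none))
    (g.map (algebraMap ℂ (MvPolynomial (Vn n) ℂ)) * Yg n)) F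

theorem sg_aeval {S : Type*} [CommRing S] [Algebra ℂ S] [Algebra ℚ S] (l x : S) (y : Matrix (Fin n) (Fin n) S)
    (g : Matrix (Fin n) (Fin n) ℂ) (F : MvPolynomial (Vn n) ℂ) :
    MvPolynomial.aeval (pt l x y) (sg g F) = MvPolynomial.aeval (pt l x (g.map (algebraMap ℂ S) * y)) F := by
  unfold sg
  rw [← AlgHom.comp_apply]
  congr 1
  refine MvPolynomial.algHom_ext fun o => ?_
  rw [AlgHom.comp_apply, MvPolynomial.aeval_X, MvPolynomial.aeval_X]
  rcases o with _ | _ | p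
  · show (MvPolynomial.aeval (pt l x y)) (MvPolynomial.X none) = l
    rw [MvPolynomial.aeval_X]
    rfl
  · show (MvPolynomial.aeval (pt l x y)) (MvPolynomial.X (some none)) = x
    rw [MvPolynomial.aeval_X]
    rfl
  · have h1 : (g.map (algebraMap ℂ (MvPolynomial (Vn n) ℂ)) * Yg n).map
        (MvPolynomial.aeval (pt l x y) : MvPolynomial (Vn n) ℂ →ₐ[ℂ] S) = g.map (algebraMap ℂ S) * y := by
      rw [mapmul, Yg_map, C_map]
    exact congrFun (congrFun h1 p.1) p.2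

theorem Pres_mul {Ω : Matrix (Fin n) (Fin n) ℂ} {N : Matrix (Fin n) (Fin n) ℤ} {Z : Matrix (Fin n) (Fin n) ℚ⟦X⟧}
    {g h : Matrix (Fin n) (Fin n) ℂ} (hg : Pres Ω N Z g) (hh : Pres Ω N Z h) : Pres Ω N Z (g * h) := by
  intro F hF
  have h1 : MvPolynomial.aeval (pt Polynomial.X (Polynomial.C (X : ℂ⟦X⟧)) (Pf Ω N Z)) (sg g F) = 0 := by
    rw [sg_aeval]
    exact hg F hF
  have h2 := hh _ h1
  rw [sg_aeval, ← Matrix.mul_assoc] at h2
  have h3 : (g * h).map (algebraMap ℂ (Polynomial ℂ⟦X⟧)) = g.map (algebraMap ℂ (Polynomial ℂ⟦X⟧)) *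
    h.map (algebraMap ℂ (Polynomial ℂ⟦X⟧)) := Matrix.map_mul
  rw [h3]
  exact h2

/-- the Galois group over the field generated by `x` and `log x` -/
def Gal (Ω : Matrix (Fin n) (Fin n) ℂ) (N : Matrix (Fin n) (Fin n) ℤ) (Z : Matrix (Fin n) (Fin n) ℚ⟦X⟧) :
    Subgroup (Matrix (Fin n) (Fin n) ℂ)ˣ where
  carrier := {g | Pres Ω N Z (g : Matrix (Fin n) (Fin n) ℂ) ∧
    Pres Ω N Z ((g⁻¹ : (Matrix (Fin n) (Fin n) ℂ)ˣ) : Matrix (Fin n) (Fin n) ℂ)}
  mul_mem' := by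
    rintro g h ⟨h1, h2⟩ ⟨h3, h4⟩
    refine ⟨by rw [Units.val_mul]; exact Pres_mul h1 h3, ?_⟩
    rw [_root_.mul_inv_rev, Units.val_mul]
    exact Pres_mul h4 h2
  one_mem' := by
    refine ⟨by rw [Units.val_one]; exact Pres_one Ω N Z, by rw [inv_one, Units.val_one]; exact Pres_one Ω N Z⟩
  inv_mem' := by
    rintro g ⟨h1, h2⟩
    exact ⟨h2, by rw [inv_inv]; exact h1⟩

/-- reindexing -/
theorem spec_equiv {I J : Type} (e : J ≃ I) {h : I → ℚ⟦X⟧} {x₀ : ℂ} {y : I → ℂ} (hy : SpecP h x₀ y) :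
    SpecP (fun j => h (e j)) x₀ fun j => y (e j) := by
  intro R hR
  have h1 := hy (MvPolynomial.rename e R) (by
    rw [MvPolynomial.aeval_rename]
    exact hR)
  rw [MvPolynomial.eval₂_rename] at h1
  exact h1

end Pool.Agent.E8helper3.AT
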