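import Mathlib

/-!
# Specialisation of relations with complex coefficients between power series with rational coefficients
-/

set_option autoImplicit false

open PowerSeries

namespace Pool.Agent.E8helper3.AT

variable {I : Type}

/-- `y` is in the specialisation at `x₀` of the variety of the relations between the `h i` over `ℚ[x]` -/
def SpecP (h : I → ℚ⟦X⟧) (x₀ : ℂ) (y : I → ℂ) : Prop :=
  ∀ R : MvPolynomial I (Polynomial ℚ), MvPolynomial.aeval h R = 0 →
    MvPolynomial.eval₂ (Polynomial.aeval x₀ : Polynomial ℚ →ₐ[ℚ] ℂ).toRingHom y R = 0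

/-- `x` as a coefficient -/
noncomputable def mv (H : MvPolynomial (Option I) ℚ) : MvPolynomial I (Polynomial ℚ) :=
  MvPolynomial.aeval (fun o : Option I => o.elim (MvPolynomial.C Polynomial.X) MvPolynomial.X) H

theorem mv_ps (h : I → ℚ⟦X⟧) (H : MvPolynomial (Option I) ℚ) :
    MvPolynomial.aeval h (mv H) = MvPolynomial.aeval (fun o : Option I => o.elim (X : ℚ⟦X⟧) h) H := by
  unfold mv
  induction H using MvPolynomial.induction_on with
  | C a =>
    rw [MvPolynomial.aeval_C, MvPolynomial.aeval_C, MvPolynomial.algebraMap_apply, MvPolynomial.aeval_C,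
      PowerSeries.algebraMap_apply']
    simp
  | add p q hp hq => rw [map_add, map_add, map_add, hp, hq]
  | mul_X p o hp =>
    rw [map_mul, map_mul, map_mul, hp, MvPolynomial.aeval_X, MvPolynomial.aeval_X]
    congr 1
    rcases o with _ | i
    · show MvPolynomial.aeval h (MvPolynomial.C Polynomial.X) = X
      rw [MvPolynomial.aeval_C, PowerSeries.algebraMap_apply']
      simp
    · show MvPolynomial.aeval h (MvPolynomial.X i) = h i
      rw [MvPolynomial.aeval_X]

theorem mv_num (x₀ : ℂ) (y : I → ℂ) (H : MvPolynomial (Option I) ℚ) :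
    MvPolynomial.eval₂ (Polynomial.aeval x₀ : Polynomial ℚ →ₐ[ℚ] ℂ).toRingHom y (mv H) =
      MvPolynomial.aeval (fun o : Option I => o.elim x₀ y) H := by
  unfold mv
  induction H using MvPolynomial.induction_on with
  | C a =>
    rw [MvPolynomial.aeval_C, MvPolynomial.aeval_C, MvPolynomial.algebraMap_apply, MvPolynomial.eval₂_C]
    simp
  | add p q hp hq => rw [map_add, map_add, MvPolynomial.eval₂_add, hp, hq]
  | mul_X p o hp =>
    rw [map_mul, map_mul, MvPolynomial.eval₂_mul, hp, MvPolynomial.aeval_X, MvPolynomial.aeval_X]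
    congr 1
    rcases o with _ | i
    · show MvPolynomial.eval₂ _ y (MvPolynomial.C Polynomial.X) = x₀
      rw [MvPolynomial.eval₂_C]
      simp
    · show MvPolynomial.eval₂ _ y (MvPolynomial.X i) = y i
      rw [MvPolynomial.eval₂_X]

/-- rational relations -/
theorem spec_one {h : I → ℚ⟦X⟧} {x₀ : ℂ} {y : I → ℂ} (hy : SpecP h x₀ y) (H : MvPolynomial (Option I) ℚ)
    (hH : MvPolynomial.aeval (fun o : Option I => o.elim (X : ℚ⟦X⟧) h) H = 0) :
    MvPolynomial.aeval (fun o : Option I => o.elim x₀ y) H = 0 := by
  rw [← mv_num]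
  exact hy _ (by rw [mv_ps, hH])

/-- the logarithm as the variable of a polynomial -/
noncomputable def lg (G : MvPolynomial (Option (Option I)) ℚ) : Polynomial (MvPolynomial (Option I) ℚ) :=
  MvPolynomial.aeval (fun o : Option (Option I) => o.elim Polynomial.X fun o => Polynomial.C (MvPolynomial.X o)) G

theorem lg_map {S : Type*} [CommRing S] [Algebra ℚ S] (f : Option I → S) (G : MvPolynomial (Option (Option I)) ℚ) :
    (lg G).map (MvPolynomial.aeval f : MvPolynomial (Option I) ℚ →ₐ[ℚ] S).toRingHom =
      MvPolynomial.aeval (fun o : Option (Option I) => o.elim (Polynomial.X : Polynomial S) fun o => Polynomial.C (f o)) G := by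
  unfold lg
  induction G using MvPolynomial.induction_on with
  | C a =>
    rw [MvPolynomial.aeval_C, MvPolynomial.aeval_C, Polynomial.algebraMap_apply, Polynomial.algebraMap_apply,
      Polynomial.map_C]
    congr 1
    exact (MvPolynomial.aeval f).commutes a
  | add p q hp hq => rw [map_add, map_add, Polynomial.map_add, hp, hq]
  | mul_X p o hp =>
    rw [map_mul, map_mul, Polynomial.map_mul, hp, MvPolynomial.aeval_X, MvPolynomial.aeval_X]
    congr 1
    rcases o with _ | i
    · show Polynomial.map _ Polynomial.X = Polynomial.X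
      rw [Polynomial.map_X]
    · show Polynomial.map _ (Polynomial.C (MvPolynomial.X i)) = Polynomial.C (f i)
      rw [Polynomial.map_C]
      simp

theorem lg_eval (f : Option I → ℂ) (s : ℂ) (G : MvPolynomial (Option (Option I)) ℚ) :
    ((lg G).map (MvPolynomial.aeval f : MvPolynomial (Option I) ℚ →ₐ[ℚ] ℂ).toRingHom).eval s =
      MvPolynomial.aeval (fun o : Option (Option I) => o.elim s f) G := by
  rw [lg_map]
  induction G using MvPolynomial.induction_on with
  | C a =>
    rw [MvPolynomial.aeval_C, MvPolynomial.aeval_C, Polynomial.algebraMap_apply, Polynomial.eval_C]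
  | add p q hp hq => rw [map_add, map_add, Polynomial.eval_add, hp, hq]
  | mul_X p o hp =>
    rw [map_mul, map_mul, Polynomial.eval_mul, hp, MvPolynomial.aeval_X, MvPolynomial.aeval_X]
    congr 1
    rcases o with _ | i
    · show Polynomial.eval s Polynomial.X = s
      rw [Polynomial.eval_X]
    · show Polynomial.eval s (Polynomial.C (f i)) = f i
      rw [Polynomial.eval_C]

/-- the formal point with rational coefficients -/
noncomputable def fq (h : I → ℚ⟦X⟧) : Option (Option I) → Polynomial ℚ⟦X⟧ :=
  fun o => o.elim Polynomial.X fun o => Polynomial.C (o.elim (X : ℚ⟦X⟧) h)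

/-- rational relations with the logarithm -/
theorem spec_log {h : I → ℚ⟦X⟧} {x₀ : ℂ} {y : I → ℂ} (hy : SpecP h x₀ y) (G : MvPolynomial (Option (Option I)) ℚ)
    (hG : MvPolynomial.aeval (fq h) G = 0) (s : ℂ) :
    MvPolynomial.aeval (fun o : Option (Option I) => o.elim s fun o => o.elim x₀ y) G = 0 := by
  rw [← lg_eval (fun o : Option I => o.elim x₀ y)]
  have h1 : (lg G).map (MvPolynomial.aeval (fun o : Option I => o.elim (X : ℚ⟦X⟧) h) :
      MvPolynomial (Option I) ℚ →ₐ[ℚ] ℚ⟦X⟧).toRingHom = 0 := by
    rw [lg_map]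
    exact hG
  have h2 : (lg G).map (MvPolynomial.aeval (fun o : Option I => o.elim x₀ y) :
      MvPolynomial (Option I) ℚ →ₐ[ℚ] ℂ).toRingHom = 0 := by
    ext i
    rw [Polynomial.coeff_map, Polynomial.coeff_zero]
    have h3 := congrArg (fun p => Polynomial.coeff p i) h1
    simp only [Polynomial.coeff_map, Polynomial.coeff_zero] at h3
    exact spec_one hy _ h3
  rw [h2, Polynomial.eval_zero]

/-- the embedding of the rational power series -/
noncomputable def emb : ℚ⟦X⟧ →+* ℂ⟦X⟧ := PowerSeries.map (algebraMap ℚ ℂ)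

/-- the formal point with complex coefficients -/
noncomputable def fc (h : I → ℚ⟦X⟧) : Option (Option I) → Polynomial ℂ⟦X⟧ :=
  fun o => o.elim Polynomial.X fun o => Polynomial.C (o.elim (X : ℂ⟦X⟧) fun i => emb (h i))

theorem fc_eq (h : I → ℚ⟦X⟧) (G : MvPolynomial (Option (Option I)) ℚ) :
    MvPolynomial.aeval (fc h) (MvPolynomial.map (algebraMap ℚ ℂ) G) =
      (MvPolynomial.aeval (fq h) G).map emb := by
  induction G using MvPolynomial.induction_on with
  | C a =>
    rw [MvPolynomial.map_C, MvPolynomial.aeval_C, MvPolynomial.aeval_C, Polynomial.algebraMap_apply,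
      Polynomial.algebraMap_apply, Polynomial.map_C]
    congr 1
    unfold emb
    rw [PowerSeries.algebraMap_apply, PowerSeries.algebraMap_apply, PowerSeries.map_C]
    rfl
  | add p q hp hq => rw [map_add, map_add, map_add, Polynomial.map_add, hp, hq]
  | mul_X p o hp =>
    rw [map_mul, map_mul, map_mul, Polynomial.map_mul, hp, MvPolynomial.map_X, MvPolynomial.aeval_X, MvPolynomial.aeval_X]
    congr 1
    rcases o with _ | _ | i
    · show Polynomial.X = Polynomial.map _ Polynomial.X
      rw [Polynomial.map_X]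
    · show Polynomial.C X = Polynomial.map _ (Polynomial.C X)
      rw [Polynomial.map_C]
      unfold emb
      rw [PowerSeries.map_X]
    · show Polynomial.C (emb (h i)) = Polynomial.map _ (Polynomial.C (h i))
      rw [Polynomial.map_C]

/-- **complex relations** -/
theorem spec_main {h : I → ℚ⟦X⟧} {x₀ : ℂ} {y : I → ℂ} (hy : SpecP h x₀ y) (G : MvPolynomial (Option (Option I)) ℂ)
    (hG : MvPolynomial.aeval (fc h) G = 0) (s : ℂ) :
    MvPolynomial.aeval (fun o : Option (Option I) => o.elim s fun o => o.elim x₀ y) G = 0 := by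
  classical
  let b := Module.Free.chooseBasis ℚ ℂ
  let Gb : Module.Free.ChooseBasisIndex ℚ ℂ → MvPolynomial (Option (Option I)) ℚ := fun β =>
    ∑ t ∈ G.support, MvPolynomial.monomial t (b.repr (G.coeff t) β)
  set Bf : Finset (Module.Free.ChooseBasisIndex ℚ ℂ) := G.support.biUnion fun t => (b.repr (G.coeff t)).support with hBf
  have hdec : G = ∑ β ∈ Bf, MvPolynomial.C (b β) * MvPolynomial.map (algebraMap ℚ ℂ) (Gb β) := by
    ext t
    rw [MvPolynomial.coeff_sum]
    by_cases ht : t ∈ G.support
    · have h1 : ∀ β, MvPolynomial.coeff t (MvPolynomial.C (b β) * MvPolynomial.map (algebraMap ℚ ℂ) (Gb β)) =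
          (b.repr (G.coeff t) β) • b β := by
        intro β
        rw [MvPolynomial.coeff_C_mul, MvPolynomial.coeff_map]
        show b β * algebraMap ℚ ℂ (MvPolynomial.coeff t (∑ t ∈ G.support, MvPolynomial.monomial t (b.repr (G.coeff t) β))) = _
        rw [MvPolynomial.coeff_sum, Finset.sum_eq_single t]
        · rw [MvPolynomial.coeff_monomial, if_pos rfl, Algebra.smul_def, mul_comm]
        · intro t' _ htt
          rw [MvPolynomial.coeff_monomial, if_neg htt]
        · intro h2
          exact absurd ht h2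
      rw [Finset.sum_congr rfl fun β _ => h1 β]
      have h2 := b.linearCombination_repr (G.coeff t)
      rw [Finsupp.linearCombination_apply, Finsupp.sum] at h2
      rw [← h2]
      conv_rhs => rw [h2]
      refine Finset.sum_subset ?_ ?_
      · intro β hβ
        exact Finset.mem_biUnion.2 ⟨t, ht, hβ⟩
      · intro β _ hβ
        rw [Finsupp.notMem_support_iff.1 hβ, zero_smul]
    · have h1 : ∀ β, MvPolynomial.coeff t (MvPolynomial.C (b β) * MvPolynomial.map (algebraMap ℚ ℂ) (Gb β)) = 0 := by
        intro β
        rw [MvPolynomial.coeff_C_mul, MvPolynomial.coeff_map]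
        show b β * algebraMap ℚ ℂ (MvPolynomial.coeff t (∑ t ∈ G.support, MvPolynomial.monomial t (b.repr (G.coeff t) β))) = _
        rw [MvPolynomial.coeff_sum, Finset.sum_eq_zero, map_zero, mul_zero]
        intro t' ht'
        rw [MvPolynomial.coeff_monomial, if_neg]
        rintro rfl
        exact ht ht'
      rw [Finset.sum_eq_zero fun β _ => h1 β]
      exact MvPolynomial.notMem_support_iff.1 ht
  have hzero : ∀ β ∈ Bf, MvPolynomial.aeval (fq h) (Gb β) = 0 := by
    intro β hβ
    ext i m
    rw [Polynomial.coeff_zero, map_zero]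
    have h1 : MvPolynomial.aeval (fc h) G = ∑ β ∈ Bf, algebraMap ℂ (Polynomial ℂ⟦X⟧) (b β) *
        (MvPolynomial.aeval (fq h) (Gb β)).map emb := by
      conv_lhs => rw [hdec]
      rw [map_sum]
      refine Finset.sum_congr rfl fun β _ => ?_
      rw [map_mul, MvPolynomial.aeval_C, fc_eq]
    rw [hG] at h1
    have h2 := congrArg (fun p => coeff m (Polynomial.coeff p i)) h1
    simp only [Polynomial.coeff_zero, map_zero, Polynomial.finsetSum_coeff, map_sum] at h2
    have h3 : ∀ β ∈ Bf, coeff m (Polynomial.coeff (algebraMap ℂ (Polynomial ℂ⟦X⟧) (b β) *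
        (MvPolynomial.aeval (fq h) (Gb β)).map emb) i) =
        (coeff m (Polynomial.coeff (MvPolynomial.aeval (fq h) (Gb β)) i)) • b β := by
      intro β _
      rw [Polynomial.algebraMap_apply, Polynomial.coeff_C_mul, Polynomial.coeff_map, PowerSeries.algebraMap_apply,
        PowerSeries.coeff_C_mul]
      unfold emb
      rw [PowerSeries.coeff_map, Algebra.smul_def, mul_comm]
      rfl
    rw [Finset.sum_congr rfl h3] at h2
    exact (linearIndependent_iff'.1 b.linearIndependent) Bf _ h2.symm β hβ
  rw [hdec, map_sum]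
  refine Finset.sum_eq_zero fun β hβ => ?_
  rw [map_mul]
  have h1 := spec_log hy (Gb β) (hzero β hβ) s
  have h2 : MvPolynomial.aeval (fun o : Option (Option I) => o.elim s fun o => o.elim x₀ y)
      (MvPolynomial.map (algebraMap ℚ ℂ) (Gb β)) =
      MvPolynomial.aeval (fun o : Option (Option I) => o.elim s fun o => o.elim x₀ y) (Gb β) :=
    MvPolynomial.aeval_map_algebraMap _ _ _
  rw [h2, h1, mul_zero]

end Pool.Agent.E8helper3.AT
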