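import Pool.Agent.E8helper3.AT.Stb

/-!
# Stability of the subtorsors at one tuple of algebraic numbers: conclusion
-/

set_option autoImplicit false
set_option linter.unusedSectionVars false

open PowerSeries Matrix Module

namespace Pool.Agent.E8helper3.AT

open Pool.Agent.TH127.PT Pool.Agent.Y123.ST Pool.Agent.Y123.GN Pool.Agent.Y916.Af Pool.Agent.Y118.UL Pool.Agent.TH119.DR

variable {B₀ : Type} [Fintype B₀] [DecidableEq B₀] {k n : ℕ}

/-- one block, as a group homomorphism -/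
noncomputable def eM (B₀ : Type) [Fintype B₀] [DecidableEq B₀] {k : ℕ} {n : ℕ} (i : Fin k) :
    (Matrix (Fin n) (Fin n) ℂ)ˣ →* (Matrix (IN B₀ k n) (IN B₀ k n) ℂ)ˣ where
  toFun g := ⟨EM 1 1 (su (n := fun _ : Fin k => n) i (g : Matrix (Fin n) (Fin n) ℂ)),
    EM 1 1 (su (n := fun _ : Fin k => n) i ((g⁻¹ : (Matrix (Fin n) (Fin n) ℂ)ˣ) : Matrix (Fin n) (Fin n) ℂ)), by
      rw [EM_mul, su_mul, Units.mul_inv, su_one, Matrix.one_mul, ← EM_one]
      congr 1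
      funext j
      exact Matrix.one_mul _, by
      rw [EM_mul, su_mul, Units.inv_mul, su_one, Matrix.one_mul, ← EM_one]
      congr 1
      funext j
      exact Matrix.one_mul _⟩
  map_one' := by
    refine Units.ext ?_
    show EM 1 1 (su (n := fun _ : Fin k => n) i ((1 : (Matrix (Fin n) (Fin n) ℂ)ˣ) : Matrix (Fin n) (Fin n) ℂ)) = 1
    rw [Units.val_one, su_one, EM_one]
  map_mul' g h := by
    refine Units.ext ?_
    show EM 1 1 (su (n := fun _ : Fin k => n) i ((g * h : (Matrix (Fin n) (Fin n) ℂ)ˣ) : Matrix (Fin n) (Fin n) ℂ)) =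
      EM 1 1 (su (n := fun _ : Fin k => n) i (g : Matrix (Fin n) (Fin n) ℂ)) *
        EM 1 1 (su (n := fun _ : Fin k => n) i (h : Matrix (Fin n) (Fin n) ℂ))
    rw [EM_mul, su_mul, Units.val_mul, Matrix.one_mul]
    congr 1
    funext j
    exact (Matrix.one_mul _).symm

theorem eM_val (i : Fin k) (g : (Matrix (Fin n) (Fin n) ℂ)ˣ) :
    ((eM B₀ i g : (Matrix (IN B₀ k n) (IN B₀ k n) ℂ)ˣ) : Matrix (IN B₀ k n) (IN B₀ k n) ℂ) =
      EM 1 1 (su (n := fun _ : Fin k => n) i (g : Matrix (Fin n) (Fin n) ℂ)) := rfl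

variable {Ω : Matrix (Fin n) (Fin n) ℂ} {N : Matrix (Fin n) (Fin n) ℤ} {Z : Matrix (Fin n) (Fin n) ℚ⟦X⟧}

theorem eM_mem {i : Fin k} {g : (Matrix (Fin n) (Fin n) ℂ)ˣ} (hg : g ∈ Gal Ω N Z) : eM B₀ i g ∈ Grp B₀ k Ω N Z := by
  refine ⟨0, fun j => if j = i then g else 1, fun j => ?_, Or.inl rfl, ?_⟩
  · show (if j = i then g else 1) ∈ Gal Ω N Z
    split_ifs
    · exact hg
    · exact (Gal Ω N Z).one_mem
  · rw [eM_val]
    congr 1
    · funext j
      exact uu_zero.symm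
    · funext j
      show su (n := fun _ : Fin k => n) i (g : Matrix (Fin n) (Fin n) ℂ) j =
        ((if j = i then g else 1 : (Matrix (Fin n) (Fin n) ℂ)ˣ) : Matrix (Fin n) (Fin n) ℂ)
      by_cases h : j = i
      · subst h
        rw [su_same, if_pos rfl]
      · rw [su_ne h, if_neg h, Units.val_one]

theorem eM_Ug {i : Fin k} : (Ug (Gal Ω N Z)).map (eM B₀ i) ≤ Ug (Grp B₀ k Ω N Z) := by
  have h0 : Ug (Gal Ω N Z) = Subgroup.closure {u : (Matrix (Fin n) (Fin n) ℂ)ˣ | ∃ N' ∈ Nil (Gal Ω N Z), ∃ t : ℂ,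
    (u : Matrix (Fin n) (Fin n) ℂ) = IsNilpotent.exp (t • N')} := rfl
  rw [h0, MonoidHom.map_closure]
  refine Subgroup.closure_mono ?_
  rintro _ ⟨u, ⟨A, hA, t, ht⟩, rfl⟩
  refine ⟨EM 0 0 (Pi.single i A), ⟨M_single_nil hA.1, fun s => ?_⟩, t, ?_⟩
  · obtain ⟨v, hv, hv'⟩ := hA.2 s
    refine ⟨eM B₀ i v, eM_mem hv, ?_⟩
    rw [eM_val, hv', M_exp_single hA.1]
  · rw [eM_val, ht, M_exp_single hA.1]

theorem all_blocks {T : Set (Matrix (IN B₀ k n) (IN B₀ k n) ℂ)} {g : Fin k → (Matrix (Fin n) (Fin n) ℂ)ˣ}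
    (h : ∀ i, eM B₀ i (g i) ∈ Sbl T) {x : Matrix (IN B₀ k n) (IN B₀ k n) ℂ} (hx : x ∈ T) :
    EM 1 1 (fun i => (g i : Matrix (Fin n) (Fin n) ℂ)) * x ∈ T := by
  classical
  have key : ∀ s : Finset (Fin k), EM 1 1 (fun j => if j ∈ s then (g j : Matrix (Fin n) (Fin n) ℂ) else 1) * x ∈ T := by
    intro s
    induction s using Finset.induction_on with
    | empty =>
      have e1 : (fun j => if j ∈ (∅ : Finset (Fin k)) then (g j : Matrix (Fin n) (Fin n) ℂ) else 1) = 1 := by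
        funext j
        simp
      rw [e1, EM_one, Matrix.one_mul]
      exact hx
    | insert i s hi ih =>
      have e1 : EM (1 : Matrix B₀ B₀ ℂ) (1 : Fin k → Matrix (Fin 2) (Fin 2) ℂ)
          (fun j => if j ∈ insert i s then (g j : Matrix (Fin n) (Fin n) ℂ) else 1) =
          EM 1 1 (su (n := fun _ : Fin k => n) i (g i : Matrix (Fin n) (Fin n) ℂ)) *
            EM 1 1 (fun j => if j ∈ s then (g j : Matrix (Fin n) (Fin n) ℂ) else 1) := by
        rw [EM_mul, Matrix.one_mul]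
        congr 1
        · funext j
          exact (Matrix.one_mul _).symm
        · funext j
          by_cases h : j = i
          · subst h
            rw [su_same, if_pos (Finset.mem_insert_self _ _), if_neg hi, Matrix.mul_one]
          · rw [su_ne h, Matrix.one_mul]
            by_cases h' : j ∈ s
            · rw [if_pos (Finset.mem_insert_of_mem h'), if_pos h']
            · rw [if_neg (fun hh => (Finset.mem_insert.1 hh).elim h h'), if_neg h']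
      rw [e1, Matrix.mul_assoc]
      exact h i _ ih
  have h1 := key Finset.univ
  have e1 : (fun j => if j ∈ (Finset.univ : Finset (Fin k)) then (g j : Matrix (Fin n) (Fin n) ℂ) else 1) =
      fun j => (g j : Matrix (Fin n) (Fin n) ℂ) := by
    funext j
    simp
  rwa [e1] at h1

/-- the unipotent part of the Kummer motives -/
theorem ug_mem (hU : Uni Ω N Z) (a : Fin k → ℂ) : ∃ u ∈ Ug (Grp B₀ k Ω N Z), (u : Matrix (IN B₀ k n) (IN B₀ k n) ℂ) =
    EM 1 (fun i => uu (a i)) 1 := by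
  classical
  have one : ∀ (i : Fin k) (t : ℂ), ∃ u ∈ Grp B₀ k Ω N Z, (u : Matrix (IN B₀ k n) (IN B₀ k n) ℂ) =
      IsNilpotent.exp (t • kn B₀ (fun _ : Fin k => n) i) := by
    intro i t
    have h1 := IsNilpotent.isUnit_exp ((kn_nil (B₀ := B₀) (n := fun _ : Fin k => n) i).smul t)
    refine ⟨h1.unit, ⟨Pi.single i t, fun _ => 1, fun _ => (Gal Ω N Z).one_mem, Or.inr hU, ?_⟩, rfl⟩
    show IsNilpotent.exp (t • kn B₀ (fun _ : Fin k => n) i) = _
    rw [kn_exp]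
    rfl
  have key : ∀ s : Finset (Fin k), ∃ u ∈ Ug (Grp B₀ k Ω N Z), (u : Matrix (IN B₀ k n) (IN B₀ k n) ℂ) =
      EM 1 (fun j => uu ((∑ i ∈ s, (Pi.single i (a i) : Fin k → ℂ)) j)) 1 := by
    intro s
    induction s using Finset.induction_on with
    | empty =>
      refine ⟨1, Subgroup.one_mem _, ?_⟩
      rw [Finset.sum_empty, ug_zero, Units.val_one]
    | insert i s hi ih =>
      obtain ⟨u, hu, hu'⟩ := ih
      obtain ⟨v, hv, hv'⟩ := one i (a i)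
      refine ⟨v * u, Subgroup.mul_mem _ (Subgroup.subset_closure ⟨kn B₀ (fun _ : Fin k => n) i, ⟨kn_nil i, one i⟩, a i, hv'⟩)
        hu, ?_⟩
      rw [Units.val_mul, hu', hv', kn_exp, ug_mul, Finset.sum_insert hi]
  obtain ⟨u, hu, hu'⟩ := key Finset.univ
  rw [Finset.univ_sum_single] at hu'
  exact ⟨u, hu, hu'⟩

/-- the known part of the Galois group -/
def Knw (Ω : Matrix (Fin n) (Fin n) ℂ) (N : Matrix (Fin n) (Fin n) ℤ) (Z : Matrix (Fin n) (Fin n) ℚ⟦X⟧) :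
    Subgroup (Matrix (Fin n) (Fin n) ℂ)ˣ := ⁅Ug (Gal Ω N Z), Ug (Gal Ω N Z)⁆

/-- **Stability at one tuple.** -/
theorem stab_at (m : ℕ) : ∃ d : ℕ, ∀ (B₀ : Type) [Fintype B₀] [DecidableEq B₀] (k n : ℕ), Fintype.card (IN B₀ k n) ≤ m →
    ∀ (c₀ : Matrix B₀ B₀ ℂ) (Ω : Matrix (Fin n) (Fin n) ℂ) (N : Matrix (Fin n) (Fin n) ℤ)
      (Z : Matrix (Fin n) (Fin n) ℚ⟦X⟧) (α ℓ : Fin k → ℂ) (D : ℕ) (W : Submodule ℚ ℂ), IsUnit Ω → N ^ n = 0 →
    (1 : ℂ) ∈ W → (∀ a b, c₀ a b ∈ W) → (∀ a b, Ω a b ∈ W) → tpi ∈ W → ¬ ExcT (hZ Z) ((n + 1) * d) D (W ^ d) α →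
    (∀ i, Complex.exp (ℓ i) = α i) → Pin Z α → ∀ K : Subfield ℂ, FiniteDimensional ℚ K → finrank ℚ K ≤ D →
    ∀ T : Set (Matrix (IN B₀ k n) (IN B₀ k n) ℂ), IsSubtorsor K T → tot c₀ Ω N Z α ℓ ∈ T →
    ∀ (a : Fin k → ℂ) (g : Fin k → (Matrix (Fin n) (Fin n) ℂ)ˣ), (a = 0 ∨ Uni Ω N Z) → (∀ i, g i ∈ Knw Ω N Z) →
    ∀ x ∈ T, EM 1 (fun i => uu (a i)) (fun i => (g i : Matrix (Fin n) (Fin n) ℂ)) * x ∈ T := by
  obtain ⟨d, hd1, hd⟩ := comm_main m
  refine ⟨d, ?_⟩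
  intro B₀ _ _ k n hm c₀ Ω N Z α ℓ D W hΩ hN h1W hcW hΩW hτW hexc hℓ hP K hK hKD T hT hcT a g ha hg x hx
  have hKalg : ∀ x ∈ K, IsAlgebraic ℚ x := by
    intro x hx
    have h2 : IsAlgebraic ℚ (⟨x, hx⟩ : K) := Algebra.IsAlgebraic.isAlgebraic _
    exact h2.algebraMap (A := ℂ)
  have hKc : (K : Set ℂ).Countable := by
    have h1 : ({x : ℂ | IsAlgebraic ℚ x} : Set ℂ).Countable := Algebraic.countable ℚ ℂ
    exact h1.mono hKalg
  have hR : ∀ u ∈ Ug (Grp B₀ k Ω N Z), Rl K d (tot c₀ Ω N Z α ℓ) (u * tot c₀ Ω N Z α ℓ) := fun u hu =>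
    grp_rl hΩ hN h1W hcW hΩW hτW hexc hℓ hP hK hKD hu
  obtain ⟨h1, -⟩ := hd (IN B₀ k n) hm K hKc T _ hT hcT (Ug (Grp B₀ k Ω N Z)) hR
  -- the Galois part
  have hGal : EM 1 1 (fun i => (g i : Matrix (Fin n) (Fin n) ℂ)) * x ∈ T := by
    refine all_blocks (fun i => h1 _ ?_) hx
    have h2 : eM B₀ i (g i) ∈ (⁅Ug (Gal Ω N Z), Ug (Gal Ω N Z)⁆ : Subgroup _).map (eM B₀ i) := ⟨g i, hg i, rfl⟩
    rw [Subgroup.map_commutator] at h2
    have h3 : (Ug (Gal Ω N Z)).map (eM B₀ i) ≤ Ug (Ug (Grp B₀ k Ω N Z)) := eM_Ug.trans (Ug_Ug _)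
    exact Subgroup.commutator_mono h3 h3 h2
  rcases ha with rfl | hU
  · have e1 : (fun i => uu ((0 : Fin k → ℂ) i)) = 1 := by
      funext i
      exact uu_zero
    rw [e1]
    exact hGal
  · -- the Kummer part
    have hu := hT.isUnit _ hcT
    obtain ⟨hc₀, -, hc⟩ := unit_of_EM hu
    have hkn : ∀ i, fl (kn B₀ (fun _ : Fin k => n) i) ∈ LL T := by
      refine kn_mem hT hc₀ (tpi_tr hKalg) hc hcT fun b => ?_
      obtain ⟨u, hu1, hu2⟩ := ug_mem (B₀ := B₀) hU b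
      have h4 := hR u hu1
      rw [hu2] at h4
      have hm' : Fintype.card (IM B₀ fun _ : Fin k => n) ≤ m := hm
      exact h4.mono (by omega)
    have h5 := ug_stab hT hkn a hGal
    rw [← Matrix.mul_assoc, EM_mul, Matrix.one_mul] at h5
    have e2 : (fun i => uu (a i) * (1 : Fin k → Matrix (Fin 2) (Fin 2) ℂ) i) = fun i => uu (a i) := by
      funext i
      exact Matrix.mul_one _
    have e3 : (fun i : Fin k => (1 : ∀ i : Fin k, Matrix (Fin n) (Fin n) ℂ) i * (g i : Matrix (Fin n) (Fin n) ℂ)) =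
        fun i => (g i : Matrix (Fin n) (Fin n) ℂ) := by
      funext i
      exact Matrix.one_mul _
    rw [e2, e3] at h5
    exact h5

end Pool.Agent.E8helper3.AT
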