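import Pool.Agent.E8helper3.AT.Gen
import Pool.Agent.Y123.GN.E2

/-!
# Stability of the subtorsors at one tuple of algebraic numbers
-/

set_option autoImplicit false
set_option linter.unusedSectionVars false

open PowerSeries Matrix Module

namespace Pool.Agent.E8helper3.AT

open Pool.Agent.TH127.PT Pool.Agent.Y123.ST Pool.Agent.Y123.GN Pool.Agent.Y916.Af Pool.Agent.Y118.UL Pool.Agent.TH119.DR
open Pool.Agent.Y916.Al (evc)
open Pool.Agent.Y119.HZ (ix)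

variable {B₀ : Type} [Fintype B₀] [DecidableEq B₀] {k n : ℕ}

/-- the unipotent local monodromy group is contained in the Galois group -/
def Uni (Ω : Matrix (Fin n) (Fin n) ℂ) (N : Matrix (Fin n) (Fin n) ℤ) (Z : Matrix (Fin n) (Fin n) ℚ⟦X⟧) : Prop :=
  ∀ c : ℂ, Pres Ω N Z (Ω * Ex N c * Ω⁻¹)

/-- the acting group -/
def Grp (B₀ : Type) [Fintype B₀] [DecidableEq B₀] (k : ℕ) {n : ℕ} (Ω : Matrix (Fin n) (Fin n) ℂ) (N : Matrix (Fin n) (Fin n) ℤ)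
    (Z : Matrix (Fin n) (Fin n) ℚ⟦X⟧) : Subgroup (Matrix (IN B₀ k n) (IN B₀ k n) ℂ)ˣ where
  carrier := {u | ∃ (a : Fin k → ℂ) (g : Fin k → (Matrix (Fin n) (Fin n) ℂ)ˣ), (∀ i, g i ∈ Gal Ω N Z) ∧ (a = 0 ∨ Uni Ω N Z) ∧
    (u : Matrix (IN B₀ k n) (IN B₀ k n) ℂ) = EM 1 (fun i => uu (a i)) fun i => (g i : Matrix (Fin n) (Fin n) ℂ)}
  mul_mem' := by
    rintro u v ⟨a, g, h1, h2, h3⟩ ⟨b, h, k1, k2, k3⟩
    refine ⟨a + b, fun i => g i * h i, fun i => (Gal Ω N Z).mul_mem (h1 i) (k1 i), ?_, ?_⟩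
    · rcases h2 with rfl | h2
      · rcases k2 with rfl | k2
        · left
          rw [add_zero]
        · exact Or.inr k2
      · exact Or.inr h2
    · rw [Units.val_mul, h3, k3, EM_mul, Matrix.one_mul]
      congr 1
      funext i
      rw [uu_mul]
      rfl
  one_mem' := by
    refine ⟨0, fun _ => 1, fun _ => (Gal Ω N Z).one_mem, Or.inl rfl, ?_⟩
    rw [Units.val_one, ← EM_one]
    congr 1
    funext i
    exact uu_zero.symm
  inv_mem' := by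
    rintro u ⟨a, g, h1, h2, h3⟩
    refine ⟨-a, fun i => (g i)⁻¹, fun i => (Gal Ω N Z).inv_mem (h1 i), ?_, ?_⟩
    · rcases h2 with rfl | h2
      · left
        rw [neg_zero]
      · exact Or.inr h2
    · have h4 : (u : Matrix (IN B₀ k n) (IN B₀ k n) ℂ) * EM 1 (fun i => uu ((-a) i))
          (fun i => (((g i)⁻¹ : (Matrix (Fin n) (Fin n) ℂ)ˣ) : Matrix (Fin n) (Fin n) ℂ)) = 1 := by
        rw [h3, EM_mul, Matrix.one_mul, ← EM_one]
        congr 1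
        · funext i
          rw [uu_mul, Pi.neg_apply, add_neg_cancel, uu_zero]
          rfl
        · funext i
          exact Units.mul_inv _
      calc ((u⁻¹ : (Matrix (IN B₀ k n) (IN B₀ k n) ℂ)ˣ) : Matrix (IN B₀ k n) (IN B₀ k n) ℂ) =
          ((u⁻¹ : (Matrix (IN B₀ k n) (IN B₀ k n) ℂ)ˣ) : Matrix (IN B₀ k n) (IN B₀ k n) ℂ) * ((u : Matrix (IN B₀ k n) (IN B₀ k n) ℂ) * EM 1 (fun i => uu ((-a) i))
          (fun i => (((g i)⁻¹ : (Matrix (Fin n) (Fin n) ℂ)ˣ) : Matrix (Fin n) (Fin n) ℂ))) := by rw [h4, Matrix.mul_one]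
        _ = _ := by rw [← Matrix.mul_assoc, Units.inv_mul, Matrix.one_mul]

/-- the point is in the product of the fibres -/
def Pin (Z : Matrix (Fin n) (Fin n) ℚ⟦X⟧) (α : Fin k → ℂ) : Prop :=
  ∀ i, SpecP (ent Z) (1 / α i) fun p => vZ Z (α i) p.1 p.2

theorem ent_spec {Z : Matrix (Fin n) (Fin n) ℚ⟦X⟧} {x₀ : ℂ} {z : Matrix (Fin n) (Fin n) ℂ}
    (hz : SpecP (ent Z) x₀ fun p => z p.1 p.2) : (fun a : Fin (n * n) => z (ix n a).2 (ix n a).1) ∈ Vc (hZ Z) x₀ := by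
  have h1 := spec_equiv ((ix n).trans (Equiv.prodComm _ _)) hz
  intro R hR
  exact h1 R hR

/-- constants -/
noncomputable def Cm' (A : Matrix (Fin n) (Fin n) ℂ) : Matrix (Fin n) (Fin n) (Polynomial ℂ) := A.map Polynomial.C

theorem ev_Cm (s : ℂ) (A : Matrix (Fin n) (Fin n) ℂ) : ev s (Cm' A) = A := by
  ext a b
  show (Polynomial.C (A a b)).eval s = A a b
  exact Polynomial.eval_C

theorem ev_Ex {N : Matrix (Fin n) (Fin n) ℤ} (hN : N ^ n = 0) (s : ℂ) (p : Polynomial ℂ) : ev s (Ex N p) = Ex N (p.eval s) :=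
  Ex_map hN (Polynomial.evalRingHom s) p

theorem per_move {Ω : Matrix (Fin n) (Fin n) ℂ} (hΩ : IsUnit Ω) {N : Matrix (Fin n) (Fin n) ℤ} (hN : N ^ n = 0)
    (l t : ℂ) (g z : Matrix (Fin n) (Fin n) ℂ) :
    Ω * Ex N (-(l + t)) * (Ex N (l + t) * Ω⁻¹ * g * (Ω * Ex N (-l) * z)) = g * (Ω * Ex N (-l) * z) := by
  have hdet := (Matrix.isUnit_iff_isUnit_det _).1 hΩ
  calc Ω * Ex N (-(l + t)) * (Ex N (l + t) * Ω⁻¹ * g * (Ω * Ex N (-l) * z)) =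
      Ω * (Ex N (-(l + t)) * Ex N (l + t)) * Ω⁻¹ * g * (Ω * Ex N (-l) * z) := by simp only [Matrix.mul_assoc]
    _ = g * (Ω * Ex N (-l) * z) := by
      rw [Ex_neg_mul hN, Matrix.mul_one, Matrix.mul_nonsing_inv _ hdet, Matrix.one_mul]

/-- **relations under the group** -/
theorem grp_rl {c₀ : Matrix B₀ B₀ ℂ} {Ω : Matrix (Fin n) (Fin n) ℂ} (hΩ : IsUnit Ω) {N : Matrix (Fin n) (Fin n) ℤ}
    (hN : N ^ n = 0) {Z : Matrix (Fin n) (Fin n) ℚ⟦X⟧} {α ℓ : Fin k → ℂ} {d D : ℕ} {W : Submodule ℚ ℂ}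
    (h1W : (1 : ℂ) ∈ W) (hcW : ∀ a b, c₀ a b ∈ W) (hΩW : ∀ a b, Ω a b ∈ W) (hτW : tpi ∈ W)
    (hexc : ¬ ExcT (hZ Z) ((n + 1) * d) D (W ^ d) α) (hℓ : ∀ i, Complex.exp (ℓ i) = α i) (hP : Pin Z α)
    {K : Subfield ℂ} (hK : FiniteDimensional ℚ K) (hKD : finrank ℚ K ≤ D) {u : (Matrix (IN B₀ k n) (IN B₀ k n) ℂ)ˣ}
    (hu : u ∈ Ug (Grp B₀ k Ω N Z)) : Rl K d (tot c₀ Ω N Z α ℓ) (u * tot c₀ Ω N Z α ℓ) := by
  have hdet := (Matrix.isUnit_iff_isUnit_det _).1 hΩ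
  obtain ⟨γ, -, -, hγ0, hγ1, hγ⟩ := Ug_curve hu
  -- the components of the curve
  set qa : Fin k → Polynomial ℂ := fun i => γ (Sum.inr ⟨i, Sum.inl 0⟩) (Sum.inr ⟨i, Sum.inl 1⟩) with hqa
  set qg : Fin k → Matrix (Fin n) (Fin n) (Polynomial ℂ) := fun i => Matrix.of fun a b =>
    γ (Sum.inr ⟨i, Sum.inr a⟩) (Sum.inr ⟨i, Sum.inr b⟩) with hqg
  have hcomp : ∀ (s : ℂ) (a : Fin k → ℂ) (g : Fin k → Matrix (Fin n) (Fin n) ℂ), ev s γ = EM 1 (fun i => uu (a i)) g →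
      (∀ i, (qa i).eval s = a i) ∧ ∀ i, ev s (qg i) = g i := by
    intro s a g h
    refine ⟨fun i => ?_, fun i => ?_⟩
    · have h1 := congrFun (congrFun h (Sum.inr ⟨i, Sum.inl 0⟩)) (Sum.inr ⟨i, Sum.inl 1⟩)
      refine Eq.trans h1 ?_
      show blockDiagonal' (fun i => fromBlocks (uu (a i)) 0 0 (g i)) ⟨i, Sum.inl 0⟩ ⟨i, Sum.inl 1⟩ = a i
      rw [blockDiagonal'_apply_eq]
      show uu (a i) 0 1 = a i
      simp [uu]
    · ext x y
      have h1 := congrFun (congrFun h (Sum.inr ⟨i, Sum.inr x⟩)) (Sum.inr ⟨i, Sum.inr y⟩)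
      refine Eq.trans h1 ?_
      show blockDiagonal' (fun i => fromBlocks (uu (a i)) 0 0 (g i)) ⟨i, Sum.inr x⟩ ⟨i, Sum.inr y⟩ = g i x y
      rw [blockDiagonal'_apply_eq]
      rfl
  have hpt : ∀ s : ℂ, ∃ (a : Fin k → ℂ) (g : Fin k → (Matrix (Fin n) (Fin n) ℂ)ˣ), (∀ i, g i ∈ Gal Ω N Z) ∧
      (a = 0 ∨ Uni Ω N Z) ∧ (∀ i, (qa i).eval s = a i) ∧ (∀ i, ev s (qg i) = (g i : Matrix (Fin n) (Fin n) ℂ)) ∧
      ev s γ = EM 1 (fun i => uu (a i)) fun i => (g i : Matrix (Fin n) (Fin n) ℂ) := by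
    intro s
    obtain ⟨v, hv, hv'⟩ := hγ s
    obtain ⟨a, g, h1, h2, h3⟩ := Ug_le _ hv
    rw [hv'] at h3
    obtain ⟨h4, h5⟩ := hcomp s a _ h3
    exact ⟨a, g, h1, h2, h4, h5, h3⟩
  -- the curve in the fibres
  set E : Fin k → Matrix (Fin n) (Fin n) (Polynomial ℂ) := fun i =>
    Ex N (Polynomial.C (ℓ i) + qa i * Polynomial.C tpi) * Cm' Ω⁻¹ * qg i * Cm' (per Ω N Z (α i) (ℓ i)) with hE
  have hEs : ∀ (s : ℂ) (i : Fin k), ev s (E i) = Ex N (ℓ i + (qa i).eval s * tpi) * Ω⁻¹ * ev s (qg i) *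
      (Ω * Ex N (-ℓ i) * vZ Z (α i)) := by
    intro s i
    show ev s (Ex N (Polynomial.C (ℓ i) + qa i * Polynomial.C tpi) * Cm' Ω⁻¹ * qg i * Cm' (per Ω N Z (α i) (ℓ i))) = _
    rw [ev_mul, ev_mul, ev_mul, ev_Cm, ev_Cm, ev_Ex hN, Polynomial.eval_add, Polynomial.eval_mul, Polynomial.eval_C,
      Polynomial.eval_C]
    rfl
  set q : Sg k n → Polynomial ℂ := fun v => v.2.elim (Polynomial.C (ℓ v.1) + qa v.1 * Polynomial.C tpi)
    fun a => E v.1 (ix n a).2 (ix n a).1 with hq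
  have hMz : ∀ (s : ℂ) (i : Fin k), Mz (fun v => (q v).eval s) i = ev s (E i) := by
    intro s i
    ext a b
    show (E i (ix n (pl n (a, b))).2 (ix n (pl n (a, b))).1).eval s = _
    rw [ix_pl]
    rfl
  have hq1 : ∀ (s : ℂ) (i : Fin k), (q (i, none)).eval s = ℓ i + (qa i).eval s * tpi := by
    intro s i
    show (Polynomial.C (ℓ i) + qa i * Polynomial.C tpi).eval s = _
    rw [Polynomial.eval_add, Polynomial.eval_mul, Polynomial.eval_C, Polynomial.eval_C]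
  -- the start
  have h0 : (∀ i, (qa i).eval 0 = 0) ∧ ∀ i, ev 0 (qg i) = 1 := by
    have h1 := hcomp 0 0 (fun _ => 1) (by
      rw [hγ0, ← EM_one]
      congr 1
      funext i
      exact uu_zero.symm)
    exact h1
  refine curve_rl (W := W) h1W hexc hℓ hK hKD (PhiT_DC h1W hcW hΩW hN hτW) q ?_ ?_ (fun b => tot_eval c₀ Ω hN Z α ℓ b) ?_
  · rintro ⟨i, _ | a⟩
    · rw [hq1, h0.1, zero_mul, add_zero]
      rfl
    · have h1 := hEs 0 i
      rw [h0.1, h0.2, zero_mul, add_zero, Matrix.mul_one] at h1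
      have h2 : Ex N (ℓ i) * Ω⁻¹ * (Ω * Ex N (-ℓ i) * vZ Z (α i)) = vZ Z (α i) := by
        calc Ex N (ℓ i) * Ω⁻¹ * (Ω * Ex N (-ℓ i) * vZ Z (α i)) = Ex N (ℓ i) * (Ω⁻¹ * Ω) * Ex N (-ℓ i) * vZ Z (α i) := by
              simp only [Matrix.mul_assoc]
          _ = _ := by rw [Matrix.nonsing_inv_mul _ hdet, Matrix.mul_one, Ex_mul_neg hN, Matrix.one_mul]
      rw [h2] at h1
      exact congrFun (congrFun h1 (ix n a).2) (ix n a).1
  · intro s i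
    obtain ⟨a, g, h1, h2, h3, h4, -⟩ := hpt s
    have h5 : Pres Ω N Z (Ω * Ex N (a i * tpi) * Ω⁻¹ * (g i : Matrix (Fin n) (Fin n) ℂ)) := by
      refine Pres_mul ?_ (h1 i).1
      rcases h2 with rfl | h2
      · rw [Pi.zero_apply, zero_mul, Ex_zero, Matrix.mul_one, Matrix.mul_nonsing_inv _ hdet]
        exact Pres_one Ω N Z
      · exact h2 _
    have h6 := act hΩ hN h5 (hP i) (-ℓ i)
    rw [neg_neg] at h6
    have h7 : Ex N (ℓ i) * (Ω⁻¹ * (Ω * Ex N (a i * tpi) * Ω⁻¹ * (g i : Matrix (Fin n) (Fin n) ℂ)) * Ω) * Ex N (-ℓ i) *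
        vZ Z (α i) = ev s (E i) := by
      rw [hEs, h3, h4]
      calc Ex N (ℓ i) * (Ω⁻¹ * (Ω * Ex N (a i * tpi) * Ω⁻¹ * (g i : Matrix (Fin n) (Fin n) ℂ)) * Ω) * Ex N (-ℓ i) *
            vZ Z (α i) = Ex N (ℓ i) * (Ω⁻¹ * Ω) * Ex N (a i * tpi) * Ω⁻¹ * (g i : Matrix (Fin n) (Fin n) ℂ) *
              (Ω * Ex N (-ℓ i) * vZ Z (α i)) := by simp only [Matrix.mul_assoc]
        _ = _ := by rw [Matrix.nonsing_inv_mul _ hdet, Matrix.mul_one, ← Ex_add hN]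
    rw [h7] at h6
    have h8 := ent_spec (z := ev s (E i)) h6
    exact h8
  · intro b
    rw [← PhiT_eval c₀ Ω hN]
    obtain ⟨a, g, h1, h2, h3, h4, h5⟩ := hpt 1
    have h7 : ∀ i, (q (i, none)).eval 1 = ℓ i + a i * tpi := fun i => by rw [hq1, h3]
    have h8 : ∀ i, Mz (fun v => (q v).eval 1) i = Ex N (ℓ i + a i * tpi) * Ω⁻¹ * (g i : Matrix (Fin n) (Fin n) ℂ) *
        (Ω * Ex N (-ℓ i) * vZ Z (α i)) := fun i => by rw [hMz, hEs, h3, h4]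
    have h6 : (u : Matrix (IN B₀ k n) (IN B₀ k n) ℂ) * tot c₀ Ω N Z α ℓ =
        EM c₀ (fun i => kum ((q (i, none)).eval 1) tpi) fun i =>
          Ω * Ex N (-(q (i, none)).eval 1) * Mz (fun v => (q v).eval 1) i := by
      rw [← hγ1, h5]
      unfold tot
      rw [EM_mul, Matrix.one_mul]
      have e1 : (fun i => uu (a i) * kum (ℓ i) tpi) = fun i => kum ((q (i, none)).eval 1) tpi := by
        funext i
        rw [uu_kum, h7]
      have e2 : (fun i => (g i : Matrix (Fin n) (Fin n) ℂ) * per Ω N Z (α i) (ℓ i)) = fun i =>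
          Ω * Ex N (-(q (i, none)).eval 1) * Mz (fun v => (q v).eval 1) i := by
        funext i
        rw [h7, h8, per_move hΩ hN, per]
      rw [e1, e2]
    rw [h6]

end Pool.Agent.E8helper3.AT
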